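import Pool.Agent.R632.CZ.Slab
import Pool.Agent.Y34.HB.WideT
import Pool.Agent.TH60.FP.Cen
import Pool.Agent.TH60.FP.Sel
import Pool.Agent.TH60.FP.Bnd
import Pool.Agent.TH60.FP.Close
import Pool.Agent.TH60.FP.Strip
import Pool.Agent.TH60.FP.Trans
import Pool.Agent.TH60.FP.Mid
import Pool.Agent.TH60.FP.Dist

set_option autoImplicit false

universe u v w

open Metric Set Filter Topology
open Pool.Agent.TH60.FP Pool.Agent.Y34.HB Pool.Agent.Y155.HB

namespace Pool.Agent.R632.CZ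

variable {X : Type u} [MetricSpace X] {G : Type v} [Group G] [MulAction G X]

theorem dd : C_DD.{u} := t_dd t_strip (t_trans t_strip) (t_mid t_strip)

theorem wide : S_WIDE.{u, v} := Pool.Agent.Y34.HB.WideT.t
  (t_close dd t_cen t_sel (t_bnd dd t_cen t_park))

lemma Axis.nat [IsIsometricSMul G X] {g : G} {τ : ℝ} {c : ℝ → X} (hc : Axis g τ c) (n : ℕ)
    (t : ℝ) : g ^ n • c t = c (t + n * τ) := by
  induction n generalizing t with
  | zero => simp
  | succ n ih =>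
    rw [pow_succ, mul_smul, hc.2, ih]
    congr 1
    push_cast
    ring

lemma Axis.shift {g : G} {τ : ℝ} {c : ℝ → X} (hc : Axis g τ c) (o : ℝ) :
    Axis g τ (fun t => c (t + o)) := by
  refine ⟨Isometry.of_dist_eq fun s t => ?_, fun t => ?_⟩
  · rw [hc.1.dist_eq, Real.dist_eq, Real.dist_eq]
    congr 1
    ring
  · show g • c (t + o) = c (t + τ + o)
    rw [hc.2]
    congr 1
    ring

lemma Axis.move [IsIsometricSMul G X] {g h : G} {τ : ℝ} {c : ℝ → X} (hc : Axis g τ c)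
    (hh : Commute g h) : Axis g τ (fun t => h • c t) := by
  refine ⟨(isometry_smul X h).comp hc.1, fun t => ?_⟩
  show g • h • c t = h • c (t + τ)
  rw [← hc.2, smul_smul, smul_smul, hh.eq]

/-- two axes of `g` are parallel -/
lemma Axis.par [IsIsometricSMul G X] {g : G} {τ : ℝ} (hτ : 0 < τ) {c c' : ℝ → X}
    (hc : Axis g τ c) (hc' : Axis g τ c') : Par c c' := by
  refine ⟨2 * τ + dist (c 0) (c' 0), fun t => ?_⟩
  have key : ∀ t0 : ℝ, 0 ≤ t0 → t0 ≤ τ → dist (c t0) (c' t0) ≤ 2 * τ + dist (c 0) (c' 0) := by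
    intro t0 h0 h1
    have h2 := dist_triangle4 (c t0) (c 0) (c' 0) (c' t0)
    rw [hc.1.dist_eq, hc'.1.dist_eq, Real.dist_eq, Real.dist_eq, sub_zero, zero_sub, abs_neg,
      abs_of_nonneg h0] at h2
    linarith
  have hn : ∀ (n : ℕ) (t : ℝ), dist (c (t + n * τ)) (c' (t + n * τ)) = dist (c t) (c' t) := by
    intro n t
    rw [← Axis.nat hc, ← Axis.nat hc', dist_smul]
  obtain ⟨m, hm⟩ : ∃ m : ℤ, m = ⌊t / τ⌋ := ⟨_, rfl⟩
  have h1 : (m : ℝ) * τ ≤ t := by
    rw [hm, ← le_div_iff₀ hτ]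
    exact Int.floor_le _
  have h2 : t ≤ (m + 1) * τ := by
    rw [hm, ← div_le_iff₀ hτ]
    exact (Int.lt_floor_add_one _).le
  obtain ⟨n, hn' | hn'⟩ := m.eq_nat_or_neg
  · have h3 := hn n (t - m * τ)
    have h4 : t - m * τ + n * τ = t := by
      rw [hn']
      push_cast
      ring
    rw [h4] at h3
    rw [h3]
    exact key _ (by linarith) (by linarith)
  · have h3 := hn n t
    have h4 : t + n * τ = t - m * τ := by
      rw [hn']
      push_cast
      ring
    rw [h4] at h3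
    rw [← h3]
    exact key _ (by linarith) (by linarith)

lemma dv_unique {p q : X} {l : ℝ} {m m' : X} (h0 : 0 ≤ l) (h1 : l ≤ 1) (h : Dv p q l m)
    (h' : Dv p q l m') : m = m' := by
  have e1 := h' m
  have e2 : dist m p ≤ l * dist p q := by
    rw [dist_comm]
    exact h.left h0
  have e3 := h.right h1
  have e4 : dist m p ^ 2 ≤ (l * dist p q) ^ 2 := pow_le_pow_left₀ dist_nonneg e2 2
  have e5 : dist m q ^ 2 ≤ ((1 - l) * dist p q) ^ 2 := pow_le_pow_left₀ dist_nonneg e3 2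
  have e6 : dist m m' ^ 2 ≤ 0 := by
    have e7 : (1 - l) * dist m p ^ 2 ≤ (1 - l) * (l * dist p q) ^ 2 :=
      mul_le_mul_of_nonneg_left e4 (by linarith)
    have e8 : l * dist m q ^ 2 ≤ l * ((1 - l) * dist p q) ^ 2 := mul_le_mul_of_nonneg_left e5 h0
    nlinarith
  exact dist_eq_zero.1 (pow_eq_zero_iff two_ne_zero |>.1 (le_antisymm e6 (sq_nonneg _)))

lemma dv_smul [IsIsometricSMul G X] {p q : X} {l : ℝ} {m : X} (h : Dv p q l m) (g : G) :
    Dv (g • p) (g • q) l (g • m) := by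
  intro x
  have := h (g⁻¹ • x)
  have e : ∀ y : X, dist (g⁻¹ • x) y = dist x (g • y) := by
    intro y
    rw [← dist_smul g (g⁻¹ • x) y, smul_inv_smul]
  rw [e, e, e] at this
  rw [dist_smul]
  exact this

/-- two axes of `g` bound a flat strip, `g` is a translation of the strip -/
theorem strip [ProperSpace X] [IsIsometricSMul G X] (hX : CN X) {g : G} {τ : ℝ} (hτ : 0 < τ)
    {c c' : ℝ → X} (hc : Axis g τ c) (hc' : Axis g τ c') (hD : 0 < DD c c') :
    ∃ S : ℝ → ℝ → X, Strip S (DD c c') ∧ (∀ t, S t 0 = c t) ∧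
      ∀ t s, 0 ≤ s → s ≤ DD c c' → g • S t s = S (t + τ) s := by
  obtain ⟨d0, o, ho⟩ := (dd.{u} X hX).1 c c' hc.1 hc'.1 (Axis.par hτ hc hc')
  set d := DD c c' with hd
  set c2 : ℝ → X := fun t => c' (t + o) with hc2
  have hA : Axis g τ c2 := Axis.shift hc' o
  have hdd : ∀ z w : ℝ, dist (c z) (c2 w) ^ 2 = d ^ 2 + dist z w ^ 2 := by
    intro z w
    rw [hc2, ho, Real.dist_eq, sq_abs]
    ring
  have hcl : ∀ s : ℝ, 0 ≤ max 0 (min 1 (s / d)) ∧ max 0 (min 1 (s / d)) ≤ 1 := fun s =>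
    ⟨le_max_left _ _, max_le zero_le_one (min_le_left _ _)⟩
  choose P hP using fun (z s : ℝ) =>
    dv_exists hX (c z) (c2 z) (max 0 (min 1 (s / d))) (hcl s).1 (hcl s).2
  have hin : ∀ s, 0 ≤ s → s ≤ d → max 0 (min 1 (s / d)) = s / d := by
    intro s h0 h1
    rw [min_eq_right ((div_le_one hD).2 h1), max_eq_right (by positivity)]
  have key : ∀ (z s : ℝ), 0 ≤ s → s ≤ d → ∀ x : X, dist x (P z s) ^ 2 ≤
      (1 - s / d) * dist x (c z) ^ 2 + s / d * dist x (c2 z) ^ 2 - s * (d - s) := by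
    intro z s h0 h1 x
    have h2 := hP z s x
    rw [hin s h0 h1, hdd z z, dist_self] at h2
    have h4 : s / d * (1 - s / d) * (d ^ 2 + 0 ^ 2) = s * (d - s) := by
      field_simp
      ring
    rw [h4] at h2
    exact h2
  have hfl := slab_of hc.1 hA.1 hD hdd P key
  refine ⟨P, ?_, ?_, ?_⟩
  · intro t s t' s' h0 h1 h2 h3
    rw [hfl t t' s s' h0 h1 h2 h3, Real.dist_eq, sq_abs]
  · intro t
    have h1 := key t 0 le_rfl hD.le (c t)
    rw [dist_self] at h1
    have h2 : dist (c t) (P t 0) ^ 2 ≤ 0 := by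
      calc dist (c t) (P t 0) ^ 2 ≤ _ := h1
        _ = 0 := by simp
    exact (dist_eq_zero.1 (pow_eq_zero_iff two_ne_zero |>.1
      (le_antisymm h2 (sq_nonneg _)))).symm
  · intro t s h0 h1
    have h2 := dv_smul (hP t s) g
    rw [hc.2, hA.2] at h2
    exact dv_unique (hcl s).1 (hcl s).2 h2 (hP (t + τ) s)

/-- without `ℤ²` the distances of the axes of elements of given translation length are bounded -/
theorem bounded (hG : Geo X G) (hno : ¬ HasZ2 G) {τ : ℝ} (hτ : 0 < τ) :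
    ∃ B : ℝ, ∀ (g : G) (c c' : ℝ → X), Axis g τ c → Axis g τ c' → DD c c' ≤ B := by
  have := hG.proper
  have := hG.isom
  by_contra hcon
  push Not at hcon
  apply hno
  refine wide X G hG τ hτ fun n => ?_
  obtain ⟨g, c, c', hc, hc', hB⟩ := hcon n
  have hn : (0 : ℝ) ≤ n := Nat.cast_nonneg n
  obtain ⟨S, h1, -, h3⟩ := strip hG.cn hτ hc hc' (by linarith)
  exact ⟨g, S, fun t s t' s' h0 h2 h4 h5 => h1 t s t' s' h0 (by linarith) h4 (by linarith),
    fun t s h0 h2 => h3 t s h0 (by linarith)⟩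

/-- the line in the middle of two axes of `g` is an axis of `g` -/
theorem mid_axis [IsIsometricSMul G X] (hX : CN X) {g : G} {τ : ℝ} (hτ : 0 < τ)
    {x y : ℝ → X} (hx : Axis g τ x) (hy : Axis g τ y) :
    ∃ m : ℝ → X, Axis g τ m ∧ ∀ z : ℝ → X, Axis g τ z →
      DD z m ^ 2 ≤ (DD z x ^ 2 + DD z y ^ 2) / 2 - DD x y ^ 2 / 4 := by
  obtain ⟨d1, d2, d3, d4, -⟩ := dd.{u} X hX
  have hxy := Axis.par hτ hx hy
  obtain ⟨m, hm, ⟨B, hB⟩, hmz⟩ := d4 x y hx.1 hy.1 hxy
  have hxm : Par x m := ⟨B, hB⟩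
  have hx0 : DD x x = 0 := by
    unfold DD
    exact infDist_zero_of_mem ⟨0, rfl⟩
  have hy0 : DD y y = 0 := by
    unfold DD
    exact infDist_zero_of_mem ⟨0, rfl⟩
  have e1 : DD x m ^ 2 ≤ DD x y ^ 2 / 4 := by
    have := hmz x hx.1 ⟨0, fun t => by rw [dist_self]⟩
    rw [hx0] at this
    linarith
  have e2 : DD y m ^ 2 ≤ DD x y ^ 2 / 4 := by
    have := hmz y hy.1 hxy
    rw [hy0, d2 y x hy.1 hx.1 (Axis.par hτ hy hx)] at this
    linarith
  set gm : ℝ → X := fun t => g • m t with hgm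
  have hgmi : Isometry gm := (isometry_smul X g).comp hm
  have hpar : Par x gm := by
    refine ⟨τ + B, fun t => ?_⟩
    have h1 : x t = g • x (t - τ) := by rw [hx.2, sub_add_cancel]
    rw [hgm, h1, dist_smul]
    refine (dist_triangle _ (x t) _).trans (add_le_add ?_ (hB t))
    rw [hx.1.dist_eq, Real.dist_eq, show t - τ - t = -τ by ring, abs_neg, abs_of_pos hτ]
  have hrange : ∀ z : ℝ → X, Axis g τ z → DD gm z = DD m z := by
    intro z hz
    rw [← Pool.Agent.TH60.FP.Bnd.DD_smul g m z]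
    unfold DD
    congr 1
    ext p
    constructor
    · rintro ⟨t, rfl⟩
      exact ⟨t - τ, by simp only [hz.2, sub_add_cancel]⟩
    · rintro ⟨t, rfl⟩
      exact ⟨t + τ, by simp only [hz.2]⟩
  have hym : Par y m := Bnd.par_trans (Bnd.par_symm hxy) hxm
  have e3 : DD gm m = 0 := by
    have h1 := hmz gm hgmi hpar
    rw [hrange x hx, hrange y hy, d2 m x hm hx.1 (Bnd.par_symm hxm),
      d2 m y hm hy.1 (Bnd.par_symm hym)] at h1
    have h2 : DD gm m ^ 2 ≤ 0 := by linarith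
    exact pow_eq_zero_iff two_ne_zero |>.1 (le_antisymm h2 (sq_nonneg _))
  obtain ⟨-, o, ho⟩ := d1 gm m hgmi hm (Bnd.par_trans (Bnd.par_symm hpar) hxm)
  have hgo : ∀ s, g • m s = m (s + o) := by
    intro s
    have h1 := ho s (s + o)
    rw [e3] at h1
    have h2 : dist (gm s) (m (s + o)) ^ 2 = 0 := by
      rw [h1]
      ring
    exact dist_eq_zero.1 (pow_eq_zero_iff two_ne_zero |>.1 h2)
  obtain ⟨-, o', ho'⟩ := d1 x m hx.1 hm hxm
  have k0 := ho' 0 0
  have k1 : dist (x τ) (m o) = dist (x 0) (m 0) := by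
    have h1 : x τ = g • x 0 := by rw [hx.2, zero_add]
    have h2 : m o = g • m 0 := by rw [hgo, zero_add]
    rw [h1, h2, dist_smul]
  have k2 : dist (x (τ + τ)) (m (o + o)) = dist (x 0) (m 0) := by
    have h1 : x (τ + τ) = g • x τ := by rw [hx.2]
    have h2 : m (o + o) = g • m o := by rw [hgo]
    rw [h1, h2, dist_smul, k1]
  have k3 := ho' τ o
  have k4 := ho' (τ + τ) (o + o)
  rw [k1] at k3
  rw [k2] at k4
  have hδ : o = τ := by
    have h1 : (o - τ) * (o - τ - 2 * o') = 0 := by linarith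
    have h2 : (o - τ) * (2 * (o - τ) - 2 * o') = 0 := by linarith
    have h3 : (o - τ) * (o - τ) = 0 := by linarith
    have := mul_self_eq_zero.1 h3
    linarith
  refine ⟨m, ⟨hm, fun t => by rw [hgo, hδ]⟩, fun z hz => ?_⟩
  exact hmz z hz.1 (Axis.par hτ hx hz)

/-- an axis of `g` which is almost fixed by the centraliser of `g` -/
theorem central (hG : Geo X G) (hno : ¬ HasZ2 G) {τ : ℝ} (hτ : 0 < τ) {g : G} {c : ℝ → X}
    (hc : Axis g τ c) : ∃ c' : ℝ → X, Axis g τ c' ∧ ∀ h : G, Commute g h →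
      DD c' (fun t => h • c' t) ≤ 1 := by
  have := hG.proper
  have := hG.isom
  obtain ⟨B, hB⟩ := bounded hG hno hτ
  obtain ⟨d1, d2, d3, d4, -⟩ := dd.{u} X hG.cn
  let A : Subgroup G := Subgroup.centralizer {g}
  have hA : ∀ a : A, Commute g (a : G) := fun a =>
    (Subgroup.mem_centralizer_singleton_iff.1 a.2).symm
  have hpp : ∀ x y : ℝ → X, Axis g τ x → Axis g τ y → Par x y := fun x y hx hy =>
    Axis.par hτ hx hy
  obtain ⟨c', h1, h2, -⟩ := t_cen (ℝ → X) (fun c => Axis g τ c) DD A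
    (fun a x hx => Axis.move hx (hA a))
    (fun x y _ _ => infDist_nonneg)
    (fun x y hx hy => d2 x y hx.1 hy.1 (hpp x y hx hy))
    (fun x y z hx hy hz => d3 x y z hx.1 hy.1 hz.1 (hpp x y hx hy) (hpp y z hy hz))
    (fun a x y _ _ => Pool.Agent.TH60.FP.Bnd.DD_smul (a : G) x y)
    (fun x y hx hy => mid_axis hG.cn hτ hx hy)
    c B 1 hc one_pos (fun a => hB g _ _ hc (Axis.move hc (hA a)))
  exact ⟨c', h1, fun h hh => h2 ⟨h, Subgroup.mem_centralizer_singleton_iff.2 hh.symm⟩⟩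

end Pool.Agent.R632.CZ
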