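import Pool.Agent.R632.CZ.Disp
import Pool.Agent.Y219.EL.Axis

set_option autoImplicit false

universe u v w

open Metric Set Filter Topology
open Pool.Agent.TH60.FP Pool.Agent.Y34.HB Pool.Agent.Y34.EL Pool.Agent.Y155.HB

namespace Pool.Agent.R632.CZ

variable {X : Type u} [MetricSpace X] {G : Type v} [Group G] [MulAction G X]

/-- elements of infinite order have axes -/
theorem axis_of_infinite (hG : Geo X G) {g : G} (hg : ¬ IsOfFinOrder g) (x : X) :
    ∃ (τ : ℝ) (c : ℝ → X), 0 < τ ∧ Axis g τ c := by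
  have := hG.proper
  have := hG.isom
  obtain ⟨y, hy⟩ := Pool.Agent.Y219.EL.exists_min hG g x
  have hδ : 0 < dist y (g • y) := by
    by_contra hcon
    push Not at hcon
    have h0 : g • y = y := (dist_eq_zero.1 (le_antisymm hcon dist_nonneg)).symm
    have hn : ∀ n : ℕ, g ^ n • y = y := by
      intro n
      induction n with
      | zero => simp
      | succ n ih => rw [pow_succ, mul_smul, h0, ih]
    apply hg
    have hf := fin_ball hG y 0
    rw [← finite_powers]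
    refine hf.subset ?_
    rintro γ ⟨n, rfl⟩
    show dist (g ^ n • y) y ≤ 0
    rw [hn, dist_self]
  have horb := Pool.Agent.Y219.EL.orbit_dist g (Pool.Agent.Y219.EL.doubling hG.cn g hy · y)
  exact Pool.Agent.Y219.EL.t_axis X G hG g y _ hδ fun m => by rw [horb m, mul_comm]

/-- triangles which are moved a little by an element of infinite order are degenerate -/
theorem thin (hG : Geo X G) : ∃ A : ℝ, 0 < A ∧ ∀ (g : G) (R : ℝ) (x : Fin 3 → X),
    ¬ IsOfFinOrder g → ¬ InZ2 g → (∀ i, dist (g • x i) (x i) ≤ R) →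
      ∃ i, dist (x i) (x (i + 1)) + dist (x i) (x (i + 2)) - dist (x (i + 1)) (x (i + 2)) ≤
        A * Real.exp (A * R) := by
  have := hG.proper
  obtain ⟨A, hA, hd⟩ := disp_exp hG
  refine ⟨6 * A, by linarith, fun g R x hg hno hx => ?_⟩
  obtain ⟨τ, c, hτ, hc⟩ := axis_of_infinite hG hg (x 0)
  set ρ : ℝ := A * Real.exp (A * R) with hρ
  have hnear : ∀ i, ∃ t : ℝ, dist (x i) (c t) ≤ ρ := by
    intro i
    obtain ⟨_, ⟨t, rfl⟩, ht⟩ :=
      hc.1.isClosedEmbedding.isClosed_range.exists_infDist_eq_dist (range_nonempty c) (x i)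
    refine ⟨t, ?_⟩
    rw [← ht]
    refine (hd g τ c (x i) hno hτ hc).trans ?_
    exact mul_le_mul_of_nonneg_left
      (Real.exp_le_exp.2 (mul_le_mul_of_nonneg_left (hx i) hA.le)) hA.le
  choose t ht using hnear
  have hup : ∀ i j, dist (x i) (x j) ≤ |t i - t j| + 2 * ρ := by
    intro i j
    have h1 := dist_triangle4 (x i) (c (t i)) (c (t j)) (x j)
    rw [hc.1.dist_eq, Real.dist_eq, dist_comm (c (t j))] at h1
    linarith [ht i, ht j]
  have hlo : ∀ i j, |t i - t j| - 2 * ρ ≤ dist (x i) (x j) := by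
    intro i j
    have h1 := dist_triangle4 (c (t i)) (x i) (x j) (c (t j))
    rw [hc.1.dist_eq, Real.dist_eq, dist_comm (c (t i))] at h1
    linarith [ht i, ht j]
  have hR0 : 0 ≤ R := dist_nonneg.trans (hx 0)
  have hexp : 6 * ρ ≤ 6 * A * Real.exp (6 * A * R) := by
    rw [hρ, ← mul_assoc]
    refine mul_le_mul_of_nonneg_left (Real.exp_le_exp.2 ?_) (by linarith)
    nlinarith [mul_nonneg hA.le hR0]
  have hmid : ∃ i : Fin 3, |t i - t (i + 1)| + |t i - t (i + 2)| ≤ |t (i + 1) - t (i + 2)| := by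
    rcases le_total (t 0) (t 1) with h1 | h1 <;> rcases le_total (t 1) (t 2) with h2 | h2 <;>
      rcases le_total (t 0) (t 2) with h3 | h3
    · refine ⟨1, ?_⟩
      show |t 1 - t 2| + |t 1 - t 0| ≤ |t 2 - t 0|
      rw [abs_of_nonpos (by linarith : t 1 - t 2 ≤ 0), abs_of_nonneg (by linarith : 0 ≤ t 1 - t 0),
        abs_of_nonneg (by linarith : 0 ≤ t 2 - t 0)]
      linarith
    · refine ⟨1, ?_⟩
      show |t 1 - t 2| + |t 1 - t 0| ≤ |t 2 - t 0|
      rw [abs_of_nonpos (by linarith : t 1 - t 2 ≤ 0), abs_of_nonneg (by linarith : 0 ≤ t 1 - t 0),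
        abs_of_nonneg (by linarith : 0 ≤ t 2 - t 0)]
      linarith
    · refine ⟨2, ?_⟩
      show |t 2 - t 0| + |t 2 - t 1| ≤ |t 0 - t 1|
      rw [abs_of_nonneg (by linarith : 0 ≤ t 2 - t 0), abs_of_nonpos (by linarith : t 2 - t 1 ≤ 0),
        abs_of_nonpos (by linarith : t 0 - t 1 ≤ 0)]
      linarith
    · refine ⟨0, ?_⟩
      show |t 0 - t 1| + |t 0 - t 2| ≤ |t 1 - t 2|
      rw [abs_of_nonpos (by linarith : t 0 - t 1 ≤ 0), abs_of_nonneg (by linarith : 0 ≤ t 0 - t 2),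
        abs_of_nonneg (by linarith : 0 ≤ t 1 - t 2)]
      linarith
    · refine ⟨0, ?_⟩
      show |t 0 - t 1| + |t 0 - t 2| ≤ |t 1 - t 2|
      rw [abs_of_nonneg (by linarith : 0 ≤ t 0 - t 1), abs_of_nonpos (by linarith : t 0 - t 2 ≤ 0),
        abs_of_nonpos (by linarith : t 1 - t 2 ≤ 0)]
      linarith
    · refine ⟨2, ?_⟩
      show |t 2 - t 0| + |t 2 - t 1| ≤ |t 0 - t 1|
      rw [abs_of_nonpos (by linarith : t 2 - t 0 ≤ 0), abs_of_nonneg (by linarith : 0 ≤ t 2 - t 1),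
        abs_of_nonneg (by linarith : 0 ≤ t 0 - t 1)]
      linarith
    · refine ⟨1, ?_⟩
      show |t 1 - t 2| + |t 1 - t 0| ≤ |t 2 - t 0|
      rw [abs_of_nonneg (by linarith : 0 ≤ t 1 - t 2), abs_of_nonpos (by linarith : t 1 - t 0 ≤ 0),
        abs_of_nonpos (by linarith : t 2 - t 0 ≤ 0)]
      linarith
    · refine ⟨1, ?_⟩
      show |t 1 - t 2| + |t 1 - t 0| ≤ |t 2 - t 0|
      rw [abs_of_nonneg (by linarith : 0 ≤ t 1 - t 2), abs_of_nonpos (by linarith : t 1 - t 0 ≤ 0),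
        abs_of_nonpos (by linarith : t 2 - t 0 ≤ 0)]
      linarith
  obtain ⟨i, hi⟩ := hmid
  refine ⟨i, le_trans ?_ hexp⟩
  linarith [hup i (i + 1), hup i (i + 2), hlo (i + 1) (i + 2)]

/-- flat discs -/
theorem disc (hG : Geo X G) : ∃ A : ℝ, 0 < A ∧ ∀ (g : G) (R r : ℝ)
    (f : EuclideanSpace ℝ (Fin 2) → X), ¬ IsOfFinOrder g →
      (∀ z ∈ closedBall 0 r, ∀ w ∈ closedBall 0 r, dist (f z) (f w) = dist z w) →
      (∀ z ∈ closedBall 0 r, dist (g • f z) (f z) ≤ R) → A * Real.exp (A * R) < r →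
      InZ2 g := by
  obtain ⟨A, hA, h⟩ := thin hG
  refine ⟨A, hA, fun g R r f hg hf hd hr => ?_⟩
  by_contra hno
  have hr0 : 0 < r := lt_of_le_of_lt (by positivity) hr
  set p : Fin 3 → EuclideanSpace ℝ (Fin 2) :=
    ![!₂[r, 0], !₂[-r / 2, r * √3 / 2], !₂[-r / 2, -(r * √3 / 2)]] with hp
  have hs3 : √3 ^ 2 = 3 := Real.sq_sqrt (by norm_num)
  have hpm : ∀ i, p i ∈ closedBall 0 r := by
    intro i
    rw [mem_closedBall, dist_zero_right, EuclideanSpace.norm_eq]
    apply Real.sqrt_le_iff.2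
    refine ⟨hr0.le, ?_⟩
    fin_cases i
    · simp [hp, Fin.sum_univ_two]
    · simp [hp, Fin.sum_univ_two]
      nlinarith
    · simp [hp, Fin.sum_univ_two]
      nlinarith
  have hpd : ∀ i j, i ≠ j → dist (p i) (p j) = r * √3 := by
    intro i j hij
    rw [EuclideanSpace.dist_eq, Fin.sum_univ_two, Real.dist_eq, Real.dist_eq, sq_abs, sq_abs]
    rw [Real.sqrt_eq_iff_mul_self_eq (by positivity) (by positivity)]
    fin_cases i <;> fin_cases j <;> first | exact absurd rfl hij | skip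
    all_goals simp [hp]
    all_goals nlinarith
  obtain ⟨i, hi⟩ := h g R (fun i => f (p i)) hg hno (fun i => hd _ (hpm i))
  have e1 : dist (f (p i)) (f (p (i + 1))) = r * √3 := by
    rw [hf _ (hpm _) _ (hpm _)]
    exact hpd _ _ (by fin_cases i <;> decide)
  have e2 : dist (f (p i)) (f (p (i + 2))) = r * √3 := by
    rw [hf _ (hpm _) _ (hpm _)]
    exact hpd _ _ (by fin_cases i <;> decide)
  have e3 : dist (f (p (i + 1))) (f (p (i + 2))) = r * √3 := by
    rw [hf _ (hpm _) _ (hpm _)]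
    exact hpd _ _ (by fin_cases i <;> decide)
  simp only [e1, e2, e3] at hi
  have h1 : (1 : ℝ) ≤ √3 := by
    rw [Real.le_sqrt' one_pos]
    norm_num
  nlinarith

end Pool.Agent.R632.CZ
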