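import Pool.Agent.R632.CZ.Local2

set_option autoImplicit false

universe u v w

open Metric Set Filter Topology
open Pool.Agent.TH60.FP Pool.Agent.Y34.HB Pool.Agent.Y34.EL Pool.Agent.Y155.HB

namespace Pool.Agent.R632.CZ

variable {X : Type u} [MetricSpace X] {G : Type v} [Group G] [MulAction G X]

/-- comparison in a triangle -/
lemma dv_thales {p x x' : X} {l : ℝ} {y z : X} (h0 : 0 ≤ l) (h1 : l ≤ 1) (hy : Dv p x l y)
    (hz : Dv p x' l z) : dist y z ≤ l * dist x x' := by
  refine (pow_le_pow_iff_left₀ dist_nonneg (mul_nonneg h0 dist_nonneg) two_ne_zero).1 ?_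
  have e1 := hy z
  have e2 := hz x
  have e3 := hz.left h0
  rw [dist_comm p z] at e3
  have e4 : dist z p ^ 2 ≤ (l * dist p x') ^ 2 := pow_le_pow_left₀ dist_nonneg e3 2
  have e5 : (1 - l) * dist z p ^ 2 ≤ (1 - l) * (l * dist p x') ^ 2 :=
    mul_le_mul_of_nonneg_left e4 (by linarith)
  have e6 : l * dist x z ^ 2 ≤ l * ((1 - l) * dist x p ^ 2 + l * dist x x' ^ 2 -
      l * (1 - l) * dist p x' ^ 2) := mul_le_mul_of_nonneg_left e2 h0
  rw [dist_comm z x] at e1
  rw [dist_comm x p] at e6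
  rw [dist_comm y z]
  calc dist z y ^ 2 ≤ _ := e1
    _ ≤ (1 - l) * (l * dist p x') ^ 2 + l * ((1 - l) * dist p x ^ 2 + l * dist x x' ^ 2 -
      l * (1 - l) * dist p x' ^ 2) - l * (1 - l) * dist p x ^ 2 := by linarith
    _ = (l * dist x x') ^ 2 := by ring

lemma dv_symm {p q : X} {l : ℝ} {m : X} (h : Dv p q l m) : Dv q p (1 - l) m := by
  intro x
  have := h x
  rw [dist_comm q p]
  linarith

/-- convexity of the displacement -/
lemma dv_disp [ProperSpace X] [IsIsometricSMul G X] (hX : CN X) {p x : X} {l : ℝ} {y : X}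
    (h0 : 0 ≤ l) (h1 : l ≤ 1) (hy : Dv p x l y) (g : G) :
    dist (g • y) y ≤ (1 - l) * dist (g • p) p + l * dist (g • x) x := by
  obtain ⟨z, hz⟩ := dv_exists hX p (g • x) l h0 h1
  have e1 := dv_thales h0 h1 hy hz
  have e2 := dv_smul hy g
  have e3 := dv_thales (by linarith) (by linarith) (dv_symm e2) (dv_symm hz)
  have e4 := dist_triangle (g • y) z y
  rw [dist_comm z y] at e4
  rw [dist_comm x (g • x)] at e1
  linarith

/-- the translation length is at most the displacement -/
lemma trans_le [IsIsometricSMul G X] {g : G} {τ : ℝ} (hτ : 0 < τ) {c : ℝ → X} (hc : Axis g τ c)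
    (x : X) : τ ≤ dist (g • x) x := by
  have hn : ∀ n : ℕ, dist (g ^ n • x) x ≤ n * dist (g • x) x := by
    intro n
    induction n with
    | zero => simp
    | succ n ih =>
      have h1 := dist_triangle (g ^ (n + 1) • x) (g ^ n • x) x
      rw [pow_succ, mul_smul, dist_smul] at h1
      rw [pow_succ, mul_smul]
      push_cast
      linarith
  have hk : ∀ n : ℕ, (n : ℝ) * (τ - dist (g • x) x) ≤ 2 * dist (c 0) x := by
    intro n
    have h1 := Axis.nat hc n 0
    have h2 : dist (c (0 + n * τ)) (c 0) = n * τ := by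
      rw [hc.1.dist_eq, Real.dist_eq, zero_add, sub_zero, abs_of_nonneg (by positivity)]
    have h3 := dist_triangle4 (g ^ n • c 0) (g ^ n • x) x (c 0)
    rw [dist_smul, h1, h2, dist_comm x (c 0)] at h3
    have h4 := hn n
    linarith
  by_contra hcon
  push Not at hcon
  obtain ⟨n, hn'⟩ := exists_nat_gt (2 * dist (c 0) x / (τ - dist (g • x) x))
  rw [div_lt_iff₀ (by linarith)] at hn'
  linarith [hk n]

/-- The displacement function of `g` grows: the distance of `x` from an axis of `g` is at most the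
number of conjugates of `g` which move the point `x0` by at most `d(g x, x)` plus a constant, times a
constant. -/
theorem disp (hG : Geo X G) (x0 : X) : ∃ C : ℝ, 0 < C ∧
    ∀ (g : G) (τ : ℝ) (c : ℝ → X) (x : X), ¬ InZ2 g → 0 < τ → Axis g τ c →
      infDist x (range c) ≤
        C * {γ : G | IsConj g γ ∧ dist (γ • x0) x0 ≤ dist (g • x) x + C}.ncard := by
  have := hG.proper
  have := hG.isom
  obtain ⟨ρ, hρ, hcov⟩ := cover hG x0
  obtain ⟨d1, d2, d3, -, -⟩ := dd.{u} X hG.cn
  set L : ℝ := 2 * ρ + 2 with hL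
  refine ⟨2 * L, by linarith, fun g τ c x hno hτ hc => ?_⟩
  set R : ℝ := dist (g • x) x with hR
  have hτR : τ ≤ R := trans_le hτ hc x
  set Γ : Set G := {γ : G | IsConj g γ ∧ dist (γ • x0) x0 ≤ R + 2 * L} with hΓ
  have hΓf : Γ.Finite := (fin_ball hG x0 (R + 2 * L)).subset fun γ h => h.2
  obtain ⟨a, ha, hac⟩ := central_loc hG hτ hno hc
  have hclosed : ∀ b : ℝ → X, Isometry b → IsClosed (range b) := fun b hb =>
    hb.isClosedEmbedding.isClosed_range
  -- points of displacement at most `R`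
  have key : ∀ z : X, dist (g • z) z ≤ R → infDist z (range a) ≤ L * Γ.ncard := by
    intro z hzR
    by_contra hcon
    push Not at hcon
    set D := infDist z (range a) with hD
    have hD0 : 0 < D := lt_of_le_of_lt (by positivity) hcon
    obtain ⟨_, ⟨t0, rfl⟩, hp⟩ := (hclosed a ha.1).exists_infDist_eq_dist (range_nonempty a) z
    rw [← hD] at hp
    set p := a t0 with hpdef
    have hpd : dist (g • p) p = τ := by
      rw [hpdef, ha.2, ha.1.dist_eq, Real.dist_eq, add_sub_cancel_left, abs_of_pos hτ]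
    -- the sample points
    have hle : ∀ i : Fin (Γ.ncard + 1), ((i : ℕ) : ℝ) * L ≤ D := by
      intro i
      have h1 : ((i : ℕ) : ℝ) ≤ Γ.ncard := by
        exact_mod_cast Nat.lt_succ_iff.1 i.2
      nlinarith
    have hge : ∀ i : Fin (Γ.ncard + 1), 0 ≤ ((i : ℕ) : ℝ) * L := fun i => by positivity
    have hl0 : ∀ i : Fin (Γ.ncard + 1), 0 ≤ ((i : ℕ) : ℝ) * L / D := fun i => by
      have := hge i
      positivity
    have hl1 : ∀ i : Fin (Γ.ncard + 1), ((i : ℕ) : ℝ) * L / D ≤ 1 := fun i =>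
      (div_le_one hD0).2 (hle i)
    choose y hy using fun i : Fin (Γ.ncard + 1) =>
      dv_exists hG.cn p z (((i : ℕ) : ℝ) * L / D) (hl0 i) (hl1 i)
    have hpz : dist p z = D := by rw [dist_comm, hp]
    have hyp : ∀ i, dist p (y i) ≤ ((i : ℕ) : ℝ) * L := by
      intro i
      have h1 := (hy i).left (hl0 i)
      rw [hpz, div_mul_cancel₀ _ hD0.ne'] at h1
      exact h1
    have hyz : ∀ i, dist (y i) z ≤ D - ((i : ℕ) : ℝ) * L := by
      intro i
      have h1 := (hy i).right (hl1 i)
      rw [hpz, sub_mul, one_mul, div_mul_cancel₀ _ hD0.ne'] at h1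
      exact h1
    have hyd : ∀ i, dist (g • y i) (y i) ≤ R := by
      intro i
      have h1 := dv_disp hG.cn (hl0 i) (hl1 i) (hy i) g
      rw [hpd] at h1
      have h2 := hl0 i
      have h3 := hl1 i
      nlinarith
    have hya : ∀ (i : Fin (Γ.ncard + 1)) (s : ℝ), ((i : ℕ) : ℝ) * L ≤ dist (a s) (y i) := by
      intro i s
      have h1 : D ≤ dist z (a s) := infDist_le_dist_of_mem ⟨s, rfl⟩
      have h2 := dist_triangle z (y i) (a s)
      have h3 := hyz i
      rw [dist_comm (y i) z] at h3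
      rw [dist_comm (a s)]
      linarith
    choose h hh using fun i : Fin (Γ.ncard + 1) => hcov (y i)
    have hmem : ∀ i, h i * g * (h i)⁻¹ ∈ Γ := by
      intro i
      refine ⟨isConj_iff.2 ⟨h i, rfl⟩, ?_⟩
      have e2 : dist ((h i * g * (h i)⁻¹) • x0) ((h i * g) • y i) ≤ ρ := by
        have e3 : (h i * g) • y i = (h i * g * (h i)⁻¹) • (h i • y i) := by
          rw [smul_smul]
          congr 1
          group
        rw [e3, dist_smul, dist_comm]
        exact hh i
      have e4 : dist ((h i * g) • y i) (h i • y i) ≤ R := by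
        rw [mul_smul, dist_smul]
        exact hyd i
      have e5 := dist_triangle4 ((h i * g * (h i)⁻¹) • x0) ((h i * g) • y i) (h i • y i) x0
      have e6 := hh i
      linarith
    obtain ⟨i, j, hij, he⟩ : ∃ i j : Fin (Γ.ncard + 1), i < j ∧
        h i * g * (h i)⁻¹ = h j * g * (h j)⁻¹ := by
      by_contra hinj
      push Not at hinj
      have hI : Function.Injective (fun i : Fin (Γ.ncard + 1) => h i * g * (h i)⁻¹) := by
        intro i j hh
        by_contra hne
        rcases lt_or_gt_of_ne hne with h1 | h1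
        · exact hinj i j h1 hh
        · exact hinj j i h1 hh.symm
      have h1 := Set.ncard_le_ncard (s := Set.range fun i : Fin (Γ.ncard + 1) =>
        h i * g * (h i)⁻¹) (t := Γ) (by rintro _ ⟨i, rfl⟩; exact hmem i) hΓf
      rw [← Set.image_univ, Set.ncard_image_of_injective _ hI, Set.ncard_univ,
        Nat.card_eq_fintype_card, Fintype.card_fin] at h1
      omega
    set k : G := (h j)⁻¹ * h i with hk
    have hcomm : Commute g k := by
      have h1 : (h j)⁻¹ * (h i * g * (h i)⁻¹) * h i = (h j)⁻¹ * (h j * g * (h j)⁻¹) * h i := by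
        rw [he]
      show g * k = k * g
      rw [hk]
      calc g * ((h j)⁻¹ * h i) = (h j)⁻¹ * (h j * g * (h j)⁻¹) * h i := by group
        _ = (h j)⁻¹ * (h i * g * (h i)⁻¹) * h i := h1.symm
        _ = (h j)⁻¹ * h i * g := by group
    have hkx : dist (k • y i) (y j) ≤ 2 * ρ := by
      have e1 : dist (k • y i) (y j) = dist (h i • y i) (h j • y j) := by
        rw [← dist_smul (h j) (k • y i), smul_smul, hk]
        congr 2
        group
      rw [e1]
      have e2 := dist_triangle (h i • y i) x0 (h j • y j)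
      have e3 := hh i
      have e4 := hh j
      rw [dist_comm] at e4
      linarith
    have hka : Axis g τ (fun t => k • a t) := Axis.move ha hcomm
    obtain ⟨-, o, ho⟩ := d1 a (fun t => k • a t) ha.1 hka.1 (Axis.par hτ ha hka)
    have e1 : dist (a (t0 - o)) (k • a t0) ≤ 1 := by
      have h1 : dist (a (t0 - o)) (k • a t0) ^ 2 = DD a (fun t => k • a t) ^ 2 := by
        rw [ho (t0 - o) t0]
        ring
      have h2 := hac k hcomm
      have h3 : 0 ≤ DD a (fun t => k • a t) := infDist_nonneg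
      have h4 : dist (a (t0 - o)) (k • a t0) = DD a (fun t => k • a t) :=
        (sq_eq_sq₀ dist_nonneg h3).1 h1
      rw [h4]
      exact h2
    have e2 : dist (k • a t0) (k • y i) ≤ ((i : ℕ) : ℝ) * L := by
      rw [dist_smul]
      exact hyp i
    have e3 := hya j (t0 - o)
    have e4 := dist_triangle4 (a (t0 - o)) (k • a t0) (k • y i) (y j)
    have e5 : ((i : ℕ) : ℝ) + 1 ≤ (j : ℕ) := by
      exact_mod_cast hij
    nlinarith
  have h1 := key x le_rfl
  -- the distance of the axes
  have hcd : dist (g • c 0) (c 0) ≤ R := by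
    rw [hc.2, hc.1.dist_eq, Real.dist_eq, zero_add, sub_zero, abs_of_pos hτ]
    exact hτR
  have h2 := key (c 0) hcd
  have h3 : DD c a ≤ L * Γ.ncard := h2
  obtain ⟨-, o, ho⟩ := d1 c a hc.1 ha.1 (Axis.par hτ hc ha)
  obtain ⟨_, ⟨t0, rfl⟩, hp⟩ := (hclosed a ha.1).exists_infDist_eq_dist (range_nonempty a) x
  have h4 : dist (a t0) (c (t0 - o)) = DD c a := by
    have h5 : dist (c (t0 - o)) (a t0) ^ 2 = DD c a ^ 2 := by
      rw [ho (t0 - o) t0]
      ring
    rw [dist_comm]
    exact (sq_eq_sq₀ dist_nonneg infDist_nonneg).1 h5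
  have h5 : infDist x (range c) ≤ dist x (c (t0 - o)) := infDist_le_dist_of_mem ⟨_, rfl⟩
  have h6 := dist_triangle x (a t0) (c (t0 - o))
  rw [← hp, h4] at h6
  linarith

/-- the exponential bound -/
theorem disp_exp (hG : Geo X G) : ∃ A : ℝ, 0 < A ∧
    ∀ (g : G) (τ : ℝ) (c : ℝ → X) (x : X), ¬ InZ2 g → 0 < τ → Axis g τ c →
      infDist x (range c) ≤ A * Real.exp (A * dist (g • x) x) := by
  by_cases hX : Nonempty X
  swap
  · exact ⟨1, one_pos, fun g τ c x => absurd ⟨x⟩ hX⟩
  obtain ⟨x0⟩ := hX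
  obtain ⟨C, hC, hw⟩ := disp hG x0
  obtain ⟨A, hA, hg⟩ := grow hG x0
  refine ⟨max A (C * Real.exp (A * (C + 1))), lt_max_of_lt_left hA,
    fun g τ c x hno hτ hc => ?_⟩
  have h1 := hw g τ c x hno hτ hc
  refine h1.trans ?_
  have hR : 0 ≤ dist (g • x) x := dist_nonneg
  have h2 : (({γ : G | IsConj g γ ∧ dist (γ • x0) x0 ≤ dist (g • x) x + C}.ncard : ℕ) : ℝ) ≤
      Real.exp (A * (dist (g • x) x + C + 1)) := by
    refine le_trans ?_ (hg (dist (g • x) x + C) (by linarith))
    have hsub : {γ : G | IsConj g γ ∧ dist (γ • x0) x0 ≤ dist (g • x) x + C} ⊆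
        {γ : G | dist (γ • x0) x0 ≤ dist (g • x) x + C} := fun γ hγ => hγ.2
    exact_mod_cast Set.ncard_le_ncard hsub (fin_ball hG x0 (dist (g • x) x + C))
  calc C * (({γ : G | IsConj g γ ∧ dist (γ • x0) x0 ≤ dist (g • x) x + C}.ncard : ℕ) : ℝ)
      ≤ C * Real.exp (A * (dist (g • x) x + C + 1)) := mul_le_mul_of_nonneg_left h2 hC.le
    _ = (C * Real.exp (A * (C + 1))) * Real.exp (A * dist (g • x) x) := by
      rw [mul_assoc, ← Real.exp_add]
      congr 2
      ring
    _ ≤ max A (C * Real.exp (A * (C + 1))) *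
        Real.exp (max A (C * Real.exp (A * (C + 1))) * dist (g • x) x) := by
      refine mul_le_mul (le_max_right _ _) (Real.exp_le_exp.2 ?_) (Real.exp_pos _).le
        (le_trans hA.le (le_max_left _ _))
      exact mul_le_mul_of_nonneg_right (le_max_left _ _) hR

lemma HP_depth {c : ℝ → X} (hc : Isometry c) {H : ℝ × NNReal → X} (hH : H ∈ HP c) (t : ℝ)
    (s : NNReal) : (s : ℝ) ≤ infDist (H (t, s)) (range c) := by
  refine (le_infDist (range_nonempty c)).2 ?_
  rintro _ ⟨t', rfl⟩
  have h1 : dist (H (t, s)) (c t') ^ 2 = (t - t') ^ 2 + (s : ℝ) ^ 2 := by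
    rw [← hH.2 t', hH.1]
    simp only [NNReal.coe_zero, sub_zero]
  have h2 : (s : ℝ) ^ 2 ≤ dist (H (t, s)) (c t') ^ 2 := by
    rw [h1]
    exact le_add_of_nonneg_left (sq_nonneg _)
  exact (pow_le_pow_iff_left₀ s.2 dist_nonneg two_ne_zero).1 h2

/-- the translates of a half-plane bounded by `c` under the powers of `g` diverge -/
theorem diverge (hG : Geo X G) : ∃ A : ℝ, 0 < A ∧
    ∀ (g : G) (τ : ℝ) (c : ℝ → X), (∀ n : ℕ, 0 < n → ¬ InZ2 (g ^ n)) → 0 < τ → Axis g τ c →
      ∀ H ∈ HP c, ∀ (m : ℕ) (D : ℝ), ∃ K : Fin (m + 1) → (ℝ × NNReal → X),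
        (∀ i, K i ∈ HP c) ∧ ∀ i j, i ≠ j → ∀ (t : ℝ) (s : NNReal),
          A * Real.exp (A * (m * τ + D)) < s → D < dist (K i (t, s)) (K j (t, s)) := by
  have := hG.isom
  obtain ⟨A, hA, hdisp⟩ := disp_exp hG
  refine ⟨A, hA, fun g τ c hno hτ hc H hH m D =>
    ⟨fun i p => g ^ (i : ℕ) • H (p.1 - (i : ℕ) * τ, p.2), fun i => ⟨fun p q => ?_, fun t => ?_⟩,
      ?_⟩⟩
  · rw [dist_smul, hH.1]
    simp only
    ring
  · show g ^ (i : ℕ) • H (t - (i : ℕ) * τ, 0) = c t
    rw [hH.2, Axis.nat hc, sub_add_cancel]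
  · have key : ∀ i j : Fin (m + 1), i < j → ∀ (t : ℝ) (s : NNReal),
        A * Real.exp (A * (m * τ + D)) < s →
          D < dist (g ^ (i : ℕ) • H (t - (i : ℕ) * τ, s))
            (g ^ (j : ℕ) • H (t - (j : ℕ) * τ, s)) := by
      intro i j hij t s hs
      by_contra hcon
      push Not at hcon
      obtain ⟨n, hn⟩ : ∃ n : ℕ, (j : ℕ) = i + n := ⟨j - i, by
        have : (i : ℕ) < j := hij
        omega⟩
      have hn0 : 0 < n := by
        have : (i : ℕ) < j := hij
        omega
      have hnm : (n : ℝ) ≤ m := by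
        have : n ≤ m := by
          have := j.2
          omega
        exact_mod_cast this
      rw [hn, pow_add, mul_smul, dist_smul] at hcon
      push_cast at hcon
      set x : X := H (t - ((i : ℕ) + (n : ℝ)) * τ, s) with hx
      have e1 : dist (H (t - (i : ℕ) * τ, s)) x = n * τ := by
        refine (sq_eq_sq₀ dist_nonneg (by positivity)).1 ?_
        rw [hx, hH.1]
        simp only
        ring
      have e2 : dist (g ^ n • x) x ≤ D + m * τ := by
        have h1 := dist_triangle (g ^ n • x) (H (t - (i : ℕ) * τ, s)) x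
        rw [e1, dist_comm (g ^ n • x) (H (t - (i : ℕ) * τ, s))] at h1
        have h2 : (n : ℝ) * τ ≤ m * τ := mul_le_mul_of_nonneg_right hnm hτ.le
        linarith
      have hcn : Axis (g ^ n) (n * τ) c := ⟨hc.1, fun t => Axis.nat hc n t⟩
      have e3 := hdisp (g ^ n) (n * τ) c x (hno n hn0) (by positivity) hcn
      have e4 := HP_depth hc.1 hH (t - ((i : ℕ) + (n : ℝ)) * τ) s
      have e5 : Real.exp (A * dist (g ^ n • x) x) ≤ Real.exp (A * (m * τ + D)) :=
        Real.exp_le_exp.2 (mul_le_mul_of_nonneg_left (by linarith) hA.le)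
      have e6 := mul_le_mul_of_nonneg_left e5 hA.le
      linarith
    intro i j hij t s hs
    rcases lt_or_gt_of_ne hij with h | h
    · exact key i j h t s hs
    · rw [dist_comm]
      exact key j i h t s hs

end Pool.Agent.R632.CZ
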