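import Pool.Agent.Y34.EL.All
import Pool.Agent.R632.CZ.Axes

set_option autoImplicit false

universe u v w

open Metric Set Filter Topology
open Pool.Agent.TH60.FP Pool.Agent.Y34.HB Pool.Agent.Y34.EL
open scoped Pointwise

namespace Pool.Agent.R632.CZ

variable {X : Type u} [MetricSpace X] {G : Type v} [Group G] [MulAction G X]

lemma fin_ball (hG : Geo X G) (x0 : X) (R : ℝ) : {γ : G | dist (γ • x0) x0 ≤ R}.Finite := by
  have := hG.proper
  have := hG.disc
  have h := ProperlyDiscontinuousSMul.finite_disjoint_inter_image (Γ := G)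
    (isCompact_singleton (x := x0)) (isCompact_closedBall x0 R)
  refine h.subset fun γ hγ => ?_
  exact ⟨γ • x0, ⟨x0, rfl, rfl⟩, hγ⟩

lemma cover (hG : Geo X G) (x0 : X) : ∃ ρ : ℝ, 0 ≤ ρ ∧ ∀ x : X, ∃ h : G, dist (h • x) x0 ≤ ρ := by
  obtain ⟨K, hK, hc⟩ := hG.cc
  obtain ⟨ρ, hρ⟩ := hK.isBounded.subset_closedBall x0
  refine ⟨max ρ 0, le_max_right _ _, fun x => ?_⟩
  obtain ⟨h, hh⟩ := hc x
  exact ⟨h, (hρ hh).trans (le_max_left _ _)⟩

/-- the orbits grow at most exponentially -/
theorem grow (hG : Geo X G) (x0 : X) : ∃ A : ℝ, 0 < A ∧ ∀ R : ℝ, 0 ≤ R →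
    (({γ : G | dist (γ • x0) x0 ≤ R}.ncard : ℕ) : ℝ) ≤ Real.exp (A * (R + 1)) := by
  have := hG.proper
  have := hG.isom
  obtain ⟨ρ, hρ, hcov⟩ := cover hG x0
  set N : ℝ → ℕ := fun R => {γ : G | dist (γ • x0) x0 ≤ R}.ncard with hN
  have hmono : ∀ R R', R ≤ R' → N R ≤ N R' := fun R R' h =>
    Set.ncard_le_ncard (fun γ hγ => le_trans hγ h) (fin_ball hG x0 R')
  have hpos : ∀ R, 0 ≤ R → 1 ≤ N R := by
    intro R hR
    rw [Nat.one_le_iff_ne_zero, ← Nat.pos_iff_ne_zero]
    refine (Set.ncard_pos (fin_ball hG x0 R)).2 ⟨1, ?_⟩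
    show dist ((1 : G) • x0) x0 ≤ R
    rw [one_smul, dist_self]
    exact hR
  set M : ℕ := N (2 * ρ + 1) with hM
  have hM1 : 1 ≤ M := hpos _ (by linarith)
  have hstep : ∀ R, 0 ≤ R → N (R + 1) ≤ N R * M := by
    intro R hR
    have hsub : {γ : G | dist (γ • x0) x0 ≤ R + 1} ⊆
        {γ : G | dist (γ • x0) x0 ≤ R} * {γ : G | dist (γ • x0) x0 ≤ 2 * ρ + 1} := by
      intro γ hγ
      have hγ' : dist (γ • x0) x0 ≤ R + 1 := hγ
      rw [dist_comm] at hγ'
      by_cases hle : dist x0 (γ • x0) ≤ ρ + 1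
      · refine ⟨1, ?_, γ, ?_, one_mul γ⟩
        · show dist ((1 : G) • x0) x0 ≤ R
          rw [one_smul, dist_self]
          exact hR
        · show dist (γ • x0) x0 ≤ 2 * ρ + 1
          rw [dist_comm]
          linarith
      · push Not at hle
        obtain ⟨y, hy1, hy2⟩ := (t_stew X hG.cn).1 x0 (γ • x0) (dist x0 (γ • x0) - (ρ + 1))
          (by linarith) (by linarith)
        obtain ⟨h, hh⟩ := hcov y
        have e1 : dist y (h⁻¹ • x0) ≤ ρ := by
          rw [← dist_smul h, smul_inv_smul]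
          exact hh
        refine ⟨h⁻¹, ?_, h * γ, ?_, by group⟩
        · show dist (h⁻¹ • x0) x0 ≤ R
          have h1 := dist_triangle (h⁻¹ • x0) y x0
          rw [dist_comm (h⁻¹ • x0) y, dist_comm y x0, hy1] at h1
          linarith
        · show dist ((h * γ) • x0) x0 ≤ 2 * ρ + 1
          have h1 : dist ((h * γ) • x0) x0 = dist (γ • x0) (h⁻¹ • x0) := by
            rw [← dist_smul h (γ • x0), smul_inv_smul, mul_smul]
          have h2 := dist_triangle (γ • x0) y (h⁻¹ • x0)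
          rw [dist_comm (γ • x0) y, hy2] at h2
          rw [h1]
          linarith
    refine (Set.ncard_le_ncard hsub ((fin_ball hG x0 R).mul (fin_ball hG x0 _))).trans ?_
    have hmul : ∀ s t : Set G, (s * t).ncard ≤ s.ncard * t.ncard := by
      intro s t
      rw [← Nat.card_coe_set_eq, ← Nat.card_coe_set_eq, ← Nat.card_coe_set_eq]
      exact Set.natCard_mul_le
    exact hmul _ _
  have hnat : ∀ n : ℕ, N n ≤ M ^ (n + 1) := by
    intro n
    induction n with
    | zero =>
      rw [pow_one]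
      exact hmono _ _ (by push_cast; linarith)
    | succ n ih =>
      have h1 := hstep n (Nat.cast_nonneg n)
      rw [pow_succ]
      push_cast
      exact h1.trans (Nat.mul_le_mul_right _ ih)
  have hMR : (1 : ℝ) ≤ M := by exact_mod_cast hM1
  refine ⟨2 * Real.log M + 1, by have := Real.log_nonneg hMR; linarith, fun R hR => ?_⟩
  have h1 : N R ≤ M ^ (⌈R⌉₊ + 1) := (hmono _ _ (Nat.le_ceil R)).trans (hnat _)
  have h2 : ((N R : ℕ) : ℝ) ≤ (M : ℝ) ^ (⌈R⌉₊ + 1) := by exact_mod_cast h1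
  refine h2.trans ?_
  rw [← Real.exp_log (show (0 : ℝ) < M by linarith), ← Real.exp_nat_mul, Real.exp_le_exp,
    Real.exp_log (show (0 : ℝ) < M by linarith)]
  have h3 : (⌈R⌉₊ : ℝ) ≤ R + 1 := (Nat.ceil_lt_add_one hR).le
  have h4 := Real.log_nonneg hMR
  push_cast
  nlinarith [mul_nonneg h4 hR]

/-- The distance of two axes of `g` is at most the number of conjugates of `g` which move the point
`x0` by at most the translation length plus a constant, times a constant. -/
theorem width (hG : Geo X G) (hno : ¬ HasZ2 G) (x0 : X) : ∃ C : ℝ, 0 < C ∧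
    ∀ (g : G) (τ : ℝ) (c c' : ℝ → X), 0 < τ → Axis g τ c → Axis g τ c' →
      DD c c' ≤ C * {γ : G | IsConj g γ ∧ dist (γ • x0) x0 ≤ τ + C}.ncard := by
  have := hG.proper
  have := hG.isom
  obtain ⟨ρ, hρ, hcov⟩ := cover hG x0
  obtain ⟨d1, d2, d3, -, -⟩ := dd.{u} X hG.cn
  set L : ℝ := 2 * ρ + 2 with hL
  refine ⟨2 * L, by linarith, fun g τ c c' hτ hc hc' => ?_⟩
  set Γ : Set G := {γ : G | IsConj g γ ∧ dist (γ • x0) x0 ≤ τ + 2 * L} with hΓ
  have hΓf : Γ.Finite := (fin_ball hG x0 (τ + 2 * L)).subset fun γ h => h.2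
  obtain ⟨a, ha, hac⟩ := central hG hno hτ hc
  have key : ∀ b : ℝ → X, Axis g τ b → DD a b ≤ L * Γ.ncard := by
    intro b hb
    by_contra hcon
    push Not at hcon
    have hD : 0 < DD a b := lt_of_le_of_lt (by positivity) hcon
    obtain ⟨S, hS, hS0, hSg⟩ := strip hG.cn hτ ha hb hD
    -- the sample points
    have hle : ∀ i : Fin (Γ.ncard + 1), (i : ℝ) * L ≤ DD a b := by
      intro i
      have h1 : ((i : ℕ) : ℝ) ≤ Γ.ncard := by
        exact_mod_cast Nat.lt_succ_iff.1 i.2
      nlinarith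
    have hge : ∀ i : Fin (Γ.ncard + 1), 0 ≤ ((i : ℕ) : ℝ) * L := fun i => by positivity
    choose h hh using fun i : Fin (Γ.ncard + 1) => hcov (S 0 (i * L))
    have hmem : ∀ i, h i * g * (h i)⁻¹ ∈ Γ := by
      intro i
      refine ⟨isConj_iff.2 ⟨h i, rfl⟩, ?_⟩
      have e1 : dist (g • S 0 (i * L)) (S 0 (i * L)) = τ := by
        rw [hSg _ _ (hge i) (hle i)]
        refine (sq_eq_sq₀ dist_nonneg hτ.le).1 ?_
        rw [hS _ _ _ _ (hge i) (hle i) (hge i) (hle i)]
        ring
      have e2 : dist ((h i * g * (h i)⁻¹) • x0) ((h i * g) • S 0 (i * L)) ≤ ρ := by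
        have e3 : (h i * g) • S 0 (i * L) = (h i * g * (h i)⁻¹) • (h i • S 0 (i * L)) := by
          rw [smul_smul]
          congr 1
          group
        rw [e3, dist_smul, dist_comm]
        exact hh i
      have e4 : dist ((h i * g) • S 0 (i * L)) (h i • S 0 (i * L)) = τ := by
        rw [mul_smul, dist_smul, e1]
      have e5 := dist_triangle4 ((h i * g * (h i)⁻¹) • x0) ((h i * g) • S 0 (i * L))
        (h i • S 0 (i * L)) x0
      have e6 := hh i
      linarith
    obtain ⟨i, j, hij, he⟩ : ∃ i j : Fin (Γ.ncard + 1), i < j ∧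
        h i * g * (h i)⁻¹ = h j * g * (h j)⁻¹ := by
      by_contra hinj
      push Not at hinj
      have hI : Function.Injective (fun i : Fin (Γ.ncard + 1) => h i * g * (h i)⁻¹) := by
        intro i j hh
        by_contra hne
        rcases lt_or_gt_of_ne hne with h1 | h1
        · exact hinj i j h1 hh
        · exact hinj j i h1 hh.symm
      have h1 := Set.ncard_le_ncard (s := Set.range fun i : Fin (Γ.ncard + 1) =>
        h i * g * (h i)⁻¹) (t := Γ) (by rintro _ ⟨i, rfl⟩; exact hmem i) hΓf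
      rw [← Set.image_univ, Set.ncard_image_of_injective _ hI, Set.ncard_univ,
        Nat.card_eq_fintype_card, Fintype.card_fin] at h1
      omega
    set k : G := (h j)⁻¹ * h i with hk
    have hcomm : Commute g k := by
      have h1 : (h j)⁻¹ * (h i * g * (h i)⁻¹) * h i = (h j)⁻¹ * (h j * g * (h j)⁻¹) * h i := by
        rw [he]
      show g * k = k * g
      rw [hk]
      calc g * ((h j)⁻¹ * h i) = (h j)⁻¹ * (h j * g * (h j)⁻¹) * h i := by group
        _ = (h j)⁻¹ * (h i * g * (h i)⁻¹) * h i := h1.symm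
        _ = (h j)⁻¹ * h i * g := by group
    have hkx : dist (k • S 0 (i * L)) (S 0 (j * L)) ≤ 2 * ρ := by
      have e1 : dist (k • S 0 (i * L)) (S 0 (j * L)) =
          dist (h i • S 0 (i * L)) (h j • S 0 (j * L)) := by
        rw [← dist_smul (h j) (k • S 0 (i * L)), smul_smul, hk]
        congr 2
        group
      rw [e1]
      have e2 := dist_triangle (h i • S 0 (i * L)) x0 (h j • S 0 (j * L))
      have e3 := hh i
      have e4 := hh j
      rw [dist_comm] at e4
      linarith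
    have hka : Axis g τ (fun t => k • a t) := Axis.move ha hcomm
    obtain ⟨-, o, ho⟩ := d1 a (fun t => k • a t) ha.1 hka.1 (Axis.par hτ ha hka)
    -- the point `k • a 0` is near `a`
    have e1 : dist (a (-o)) (k • a 0) ≤ 1 := by
      have h1 : dist (a (-o)) (k • a 0) ^ 2 = DD a (fun t => k • a t) ^ 2 := by
        rw [ho (-o) 0]
        ring
      have h2 := hac k hcomm
      have h3 : 0 ≤ DD a (fun t => k • a t) := infDist_nonneg
      have h4 : dist (a (-o)) (k • a 0) = DD a (fun t => k • a t) :=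
        (sq_eq_sq₀ dist_nonneg h3).1 h1
      rw [h4]
      exact h2
    have e2 : dist (k • a 0) (k • S 0 (i * L)) = i * L := by
      rw [dist_smul, ← hS0]
      refine (sq_eq_sq₀ dist_nonneg (hge i)).1 ?_
      rw [hS _ _ _ _ le_rfl hD.le (hge i) (hle i)]
      ring
    have e3 : (j : ℝ) * L ≤ dist (a (-o)) (S 0 (j * L)) := by
      rw [← hS0]
      refine (pow_le_pow_iff_left₀ (hge j) dist_nonneg two_ne_zero).1 ?_
      rw [hS _ _ _ _ le_rfl hD.le (hge j) (hle j)]
      nlinarith [sq_nonneg (-o - 0)]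
    have e4 := dist_triangle4 (a (-o)) (k • a 0) (k • S 0 (i * L)) (S 0 (j * L))
    have e5 : ((i : ℕ) : ℝ) + 1 ≤ (j : ℕ) := by
      exact_mod_cast hij
    nlinarith
  have h1 := key c hc
  have h2 := key c' hc'
  have h3 := d3 c a c' hc.1 ha.1 hc'.1 (Axis.par hτ hc ha) (Axis.par hτ ha hc')
  have h4 := d2 c a hc.1 ha.1 (Axis.par hτ hc ha)
  rw [h4] at h3
  linarith

end Pool.Agent.R632.CZ
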