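import Pool.Agent.R632.CZ.Grow
import Pool.Agent.Y34.HB.Half
import Pool.Agent.Y419.HB.Per
import Pool.Agent.Y514.HB.HPC

set_option autoImplicit false

universe u v w

open Metric Set Filter Topology
open Pool.Agent.TH60.FP Pool.Agent.Y34.HB

namespace Pool.Agent.R632.CZ

/-- `g` is a member of a basis of a subgroup isomorphic to `ℤ²` -/
def InZ2 {G : Type v} [Group G] (g : G) : Prop :=
  ∃ φ : Multiplicative (ℤ × ℤ) →* G, Function.Injective φ ∧ φ (Multiplicative.ofAdd (1, 0)) = g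

variable {X : Type u} [MetricSpace X] {G : Type v} [Group G] [MulAction G X]

lemma inZ2_of_conj {g h : G} (hc : IsConj g h) (hh : InZ2 h) : InZ2 g := by
  obtain ⟨b, hb⟩ := isConj_iff.1 hc
  obtain ⟨φ, hφ, h1⟩ := hh
  refine ⟨(MulAut.conj b⁻¹).toMonoidHom.comp φ, (MulAut.conj b⁻¹).injective.comp hφ, ?_⟩
  show b⁻¹ * φ (Multiplicative.ofAdd (1, 0)) * b⁻¹⁻¹ = g
  rw [h1, ← hb]
  group

namespace Loc

open Pool.Agent.TH60.FP.Close

lemma ex_pow_loc {F : ℝ → ℝ → X} {g : G} {τ B : ℝ} (hS : Setup X G F g τ B)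
    (hno : ¬ InZ2 g) {k : G}
    (hk : Commute g k) : ∃ N : ℕ, 0 < N ∧ k ^ N ∈ Subgroup.zpowers g := by
  have h1 : ¬ Function.Injective (hom2 hk) := fun h =>
    hno ⟨_, h, by rw [hom2_apply]; simp⟩
  rw [injective_iff_map_eq_one] at h1
  push Not at h1
  obtain ⟨a, ha, ha1⟩ := h1
  obtain ⟨⟨i, j⟩, rfl⟩ : ∃ b, Multiplicative.ofAdd b = a := ⟨Multiplicative.toAdd a, rfl⟩
  rw [hom2_apply] at ha
  by_cases hj : j = 0
  · subst hj
    rw [zpow_zero, mul_one] at ha
    have := g_inf hS ha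
    subst this
    exact absurd rfl ha1
  · have h2 : k ^ j = g ^ (-i) := by
      rw [zpow_neg]
      exact (inv_eq_of_mul_eq_one_right ha).symm
    refine ⟨j.natAbs, Int.natAbs_pos.2 hj, ?_⟩
    rcases Int.natAbs_eq j with h | h
    · refine ⟨-i, ?_⟩
      show g ^ (-i) = k ^ j.natAbs
      rw [← zpow_natCast, ← h, h2]
    · refine ⟨i, ?_⟩
      show g ^ i = k ^ j.natAbs
      have h3 : ((j.natAbs : ℕ) : ℤ) = -j := by omega
      rw [← zpow_natCast, h3, zpow_neg, h2, zpow_neg, inv_inv]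

/-- a flat with the period `g` gives `ℤ²` which contains `g` (the proof is that of
`Pool.Agent.TH60.FP.t_close`) -/
theorem close_loc {F : ℝ → ℝ → X} {g : G} {τ B : ℝ} (hS : Setup X G F g τ B) : InZ2 g := by
  have hDD : C_DD.{u} := dd
  have hCEN : Y_CEN.{u, 0} := t_cen
  have hSEL : X_SEL.{u, v} := t_sel
  have hBND : X_BND.{u, v} := t_bnd dd t_cen t_park
  have hPARK := t_park.{u, v} X G F g τ B hS
  have := hS.isom
  obtain ⟨d1, d2, d3, d4, d5⟩ := hDD X hS.cn
  obtain ⟨N0, hN0⟩ := hBND X G F g τ B hS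
  by_contra hno
  have hB0 : 0 ≤ B := dist_nonneg.trans (hS.per 0 0 0)
  have hτ := hS.pos
  set C : ℝ := B + 2 * N0 + 4 with hC
  have hC4 : 4 ≤ C := by
    have : (0 : ℝ) ≤ N0 := Nat.cast_nonneg _
    linarith
  have hC0 : 0 < C := by linarith
  set ε : ℝ := 1 / (8 * C) with hε
  have hε0 : 0 < ε := by positivity
  have hε1 : ε ≤ 1 / 32 := by
    rw [hε]
    apply one_div_le_one_div_of_le <;> linarith
  have hεC : 8 * ε * C = 1 := by rw [hε]; field_simp
  obtain ⟨n, m, k, hnm, hk, hd1, hd2⟩ := hSEL X G F g τ B hS ε hε0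
  have hex := ex_pow_loc hS hno hk
  classical
  obtain ⟨hNpos, hNpow⟩ := Nat.find_spec hex
  set N := Nat.find hex with hN
  have hNN0 : N ≤ N0 := by
    refine hN0 k hk N hNpos hNpow fun j hj0 hjN hmem => ?_
    exact Nat.find_min hex hjN ⟨hj0, hmem⟩
  obtain ⟨M, hM⟩ := hNpow
  have hM' : g ^ M = k ^ N := hM
  -- lines
  set l : ℝ → ℝ → X := fun y t => F t y with hl
  have hli : ∀ y, Isometry (l y) := fun y => Fl.isom hS.flat y
  have hlp : ∀ y y', Par (l y) (l y') := fun y y' => Fl.par hS.flat y y'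
  set P : (ℝ → X) → Prop := fun c => Isometry c ∧ Par (l 0) c with hP
  have hPl : ∀ y, P (l y) := fun y => ⟨hli y, hlp 0 y⟩
  have hpp : ∀ c c', P c → P c' → Par c c' := fun c c' h h' => Par.trans' (Par.symm' h.2) h'.2
  have hPa : ∀ (a : G), Commute g a → ∀ c, P c → P (fun t => a • c t) := fun a ha c hc =>
    ⟨isom_smul a hc.1, hPARK a ha c hc.2⟩
  have dtri : ∀ x y z, P x → P y → P z → DD x z ≤ DD x y + DD y z := fun x y z hx hy hz =>
    d3 x y z hx.1 hy.1 hz.1 (hpp x y hx hy) (hpp y z hy hz)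
  have dsym : ∀ x y, P x → P y → DD x y = DD y x := fun x y hx hy =>
    d2 x y hx.1 hy.1 (hpp x y hx hy)
  have d0 : ∀ x y : ℝ → X, 0 ≤ DD x y := fun x y => Metric.infDist_nonneg
  set T : ℝ := (m : ℝ) - n with hT
  have hT1 : 1 ≤ T := by
    have : (n : ℝ) + 1 ≤ m := by exact_mod_cast hnm
    linarith
  -- the orbit of `l n` is bounded
  have o1 : ∀ i : ℤ, DD (l n) (fun t => g ^ i • l n t) ≤ B := by
    intro i
    refine (DD_le _ _ (-(i * τ))).trans ?_
    have := hS.per i (-(i * τ)) n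
    rw [neg_add_cancel] at this
    rw [dist_comm]
    exact this
  have hkn : DD (l n) (fun t => k • l n t) ≤ T + ε := by
    refine (dtri _ (l m) _ (hPl _) (hPl _) (hPa k hk _ (hPl _))).trans (add_le_add ?_ ?_)
    · refine (DD_le _ _ 0).trans ?_
      show dist (F 0 n) (F 0 m) ≤ T
      rw [Fl.vert hS.flat, hT, abs_sub_comm, abs_of_nonneg (by linarith)]
    · refine (DD_le _ _ 0).trans ?_
      rw [dist_comm]
      exact hd1
  have hkr : ∀ r : ℕ, DD (l n) (fun t => k ^ r • l n t) ≤ r * (T + ε) := by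
    intro r
    induction r with
    | zero =>
      have : DD (l n) (l n) ≤ 0 := (DD_le _ _ 0).trans (by rw [dist_self])
      simpa using this
    | succ r ih =>
      have hc1 : Commute g (k ^ r) := hk.pow_right r
      have h1 := dtri (l n) (fun t => k ^ r • l n t) (fun t => k ^ (r + 1) • l n t) (hPl _)
        (hPa _ hc1 _ (hPl _)) (hPa _ (hk.pow_right (r + 1)) _ (hPl _))
      have h2 : DD (fun t => k ^ r • l n t) (fun t => k ^ (r + 1) • l n t) =
          DD (l n) (fun t => k • l n t) := by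
        rw [← DD_smul (k ^ r) (l n) (fun t => k • l n t)]
        congr 1
        funext t
        rw [pow_succ, mul_smul]
      rw [h2] at h1
      push_cast
      linarith
  set R : ℝ := B + N0 * (T + ε) with hR
  let act : MulAction (Multiplicative (ℤ × ℤ)) (ℝ → X) := MulAction.compHom (ℝ → X) (hom2 hk)
  have hact : ∀ (i j : ℤ) (c : ℝ → X), (Multiplicative.ofAdd (i, j) : Multiplicative (ℤ × ℤ)) • c =
      fun t => (g ^ i * k ^ j) • c t := fun i j c => rfl
  have hcomm : ∀ i j : ℤ, Commute g (g ^ i * k ^ j) := fun i j =>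
    ((Commute.refl g).zpow_right i).mul_right (hk.zpow_right j)
  have horb : ∀ a : Multiplicative (ℤ × ℤ), DD (l n) (a • l n) ≤ R := by
    intro a
    obtain ⟨⟨i, j⟩, rfl⟩ : ∃ b, Multiplicative.ofAdd b = a := ⟨Multiplicative.toAdd a, rfl⟩
    rw [hact]
    have hNz : (0 : ℤ) < N := by exact_mod_cast hNpos
    set r : ℕ := (j % N).toNat with hr
    have hr0 : (r : ℤ) = j % N := Int.toNat_of_nonneg (Int.emod_nonneg _ hNz.ne')
    have hrN : r < N := by
      have := Int.emod_lt_of_pos j hNz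
      omega
    have hj : k ^ j = g ^ (M * (j / N)) * k ^ r := by
      have h1 : j = N * (j / N) + r := by rw [hr0]; exact (Int.mul_ediv_add_emod j N).symm
      conv_lhs => rw [h1]
      rw [zpow_add, zpow_mul, zpow_natCast, zpow_natCast, ← hM', ← zpow_mul]
    have h2 : g ^ i * k ^ j = g ^ (i + M * (j / N)) * k ^ r := by
      rw [hj, ← mul_assoc, ← zpow_add]
    rw [h2]
    set i' : ℤ := i + M * (j / N) with hi'
    have hcg : Commute g (g ^ i') := (Commute.refl g).zpow_right i'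
    have h3 := dtri (l n) (fun t => g ^ i' • l n t) (fun t => (g ^ i' * k ^ r) • l n t) (hPl _)
      (hPa _ hcg _ (hPl _)) (hPa _ (hcg.mul_right (hk.pow_right r)) _ (hPl _))
    have h4 : DD (fun t => g ^ i' • l n t) (fun t => (g ^ i' * k ^ r) • l n t) =
        DD (l n) (fun t => k ^ r • l n t) := by
      rw [← DD_smul (g ^ i') (l n) (fun t => k ^ r • l n t)]
      congr 1
      funext t
      rw [mul_smul]
    rw [h4] at h3
    have h5 : (r : ℝ) * (T + ε) ≤ N0 * (T + ε) := by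
      apply mul_le_mul_of_nonneg_right _ (by linarith)
      exact_mod_cast (hrN.le.trans hNN0)
    linarith [o1 i', hkr r]
  obtain ⟨c, hc, hce, hcR⟩ := hCEN (ℝ → X) P DD (Multiplicative (ℤ × ℤ))
    (by
      intro a x hx
      obtain ⟨⟨i, j⟩, rfl⟩ : ∃ b, Multiplicative.ofAdd b = a := ⟨Multiplicative.toAdd a, rfl⟩
      rw [hact]
      exact hPa _ (hcomm i j) _ hx)
    (fun x y _ _ => d0 x y) dsym dtri
    (by
      intro a x y _ _
      obtain ⟨⟨i, j⟩, rfl⟩ : ∃ b, Multiplicative.ofAdd b = a := ⟨Multiplicative.toAdd a, rfl⟩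
      rw [hact, hact]
      exact DD_smul _ x y)
    (by
      intro x y hx hy
      obtain ⟨m', h1, h2, h3⟩ := d4 x y hx.1 hy.1 (hpp x y hx hy)
      exact ⟨m', ⟨h1, Par.trans' hx.2 h2⟩, fun z hz => h3 z hz.1 (hpp x z hx hz)⟩)
    (l n) R ε (hPl _) hε0 horb
  have hck : DD c (fun t => k • c t) ≤ ε := by
    have := hce (Multiplicative.ofAdd ((0 : ℤ), (1 : ℤ)))
    rw [hact] at this
    simpa using this
  have hkc : P (fun t => k • c t) := hPa k hk _ hc
  -- comparison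
  have comp : ∀ y y' : ℝ, dist (k • F 0 y) (F 0 y') ≤ ε →
      DD c (l y') ≤ DD c (l y) + 2 * ε ∧ DD c (l y) ≤ DD c (l y') + 2 * ε := by
    intro y y' hd
    have hky : P (fun t => k • l y t) := hPa k hk _ (hPl _)
    have h1 : DD (fun t => k • l y t) (l y') ≤ ε := (DD_le _ _ 0).trans hd
    have h2 : DD (fun t => k • c t) (fun t => k • l y t) = DD c (l y) := DD_smul k c (l y)
    have h3 := dtri c _ (l y') hc hkc (hPl _)
    have h4 := dtri (fun t => k • c t) _ (l y') hkc hky (hPl _)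
    have h5 := dtri (fun t => k • c t) _ (fun t => k • l y t) hkc hc hky
    have h6 := dtri c _ (fun t => k • l y t) hc (hPl y') hky
    rw [dsym _ _ (hPl y') hky] at h6
    rw [dsym _ _ hkc hc] at h5
    constructor <;> linarith
  obtain ⟨a1, a2⟩ := comp n m hd1
  obtain ⟨b1, b2⟩ := comp ((n : ℝ) - 1) ((m : ℝ) - 1) hd2
  set f : ℝ → ℝ := fun y => DD c (l y) with hf
  have hf0 : ∀ y, 0 ≤ f y := fun y => d0 _ _
  have hfn : f n ≤ R + ε := hcR
  have hstep : ∀ y : ℝ, f (y - 1) ≤ f y + 1 := by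
    intro y
    refine (dtri c (l y) (l (y - 1)) hc (hPl _) (hPl _)).trans (add_le_add le_rfl ?_)
    refine (DD_le _ _ 0).trans ?_
    show dist (F 0 y) (F 0 (y - 1)) ≤ 1
    rw [Fl.vert hS.flat]
    simp
  have hconv : ∀ y : ℝ, f y ^ 2 ≤ (f (y - 1) ^ 2 + f (y + 1) ^ 2) / 2 - 1 := by
    intro y
    exact d5 F hS.flat c hc.1 y (hpp (l y) c (hPl y) hc)
  have hdiff : ∀ j : ℕ, f (n + j) ^ 2 - f (n + j - 1) ^ 2 ≥ f n ^ 2 - f (n - 1) ^ 2 + 2 * j := by
    intro j
    induction j with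
    | zero => simp
    | succ j ih =>
      have h1 := hconv ((n : ℝ) + j)
      push_cast
      have e1 : (n : ℝ) + (j + 1) - 1 = n + j := by ring
      have e2 : (n : ℝ) + (j + 1) = n + j + 1 := by ring
      rw [e1, e2]
      nlinarith
  obtain ⟨j, hj⟩ : ∃ j : ℕ, m = n + j := ⟨m - n, by omega⟩
  have hjT : (j : ℝ) = T := by rw [hT, hj]; push_cast; ring
  have hmain := hdiff j
  have e3 : (n : ℝ) + j = m := by rw [hj]; push_cast; ring
  rw [e3, hjT] at hmain
  have hN0' : (0 : ℝ) ≤ N0 := Nat.cast_nonneg _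
  have hR0 : 0 ≤ R := by
    have : 0 ≤ (N0 : ℝ) * (T + ε) := by positivity
    linarith
  -- the estimate
  set Mx : ℝ := R + 3 * ε + 1 with hMx
  have g1 : f n ≤ Mx := by linarith
  have g2 : f m ≤ Mx := by linarith
  have g3 : f ((n : ℝ) - 1) ≤ Mx := by linarith [hstep n]
  have g4 : f ((m : ℝ) - 1) ≤ Mx := by linarith [hstep m]
  have s1 : f m ^ 2 - f n ^ 2 ≤ 4 * ε * Mx := by
    have : f m ^ 2 - f n ^ 2 = (f m - f n) * (f m + f n) := by ring
    rw [this]
    have k1 : f m - f n ≤ 2 * ε := by linarith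
    have k2 : 0 ≤ f m + f n := add_nonneg (hf0 _) (hf0 _)
    calc (f m - f n) * (f m + f n) ≤ 2 * ε * (f m + f n) := mul_le_mul_of_nonneg_right k1 k2
      _ ≤ 2 * ε * (2 * Mx) := by
        apply mul_le_mul_of_nonneg_left _ (by positivity)
        linarith
      _ = 4 * ε * Mx := by ring
  have s2 : f ((n : ℝ) - 1) ^ 2 - f ((m : ℝ) - 1) ^ 2 ≤ 4 * ε * Mx := by
    have : f ((n : ℝ) - 1) ^ 2 - f ((m : ℝ) - 1) ^ 2 =
      (f ((n : ℝ) - 1) - f ((m : ℝ) - 1)) * (f ((n : ℝ) - 1) + f ((m : ℝ) - 1)) := by ring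
    rw [this]
    have k1 : f ((n : ℝ) - 1) - f ((m : ℝ) - 1) ≤ 2 * ε := by linarith
    have k2 : 0 ≤ f ((n : ℝ) - 1) + f ((m : ℝ) - 1) := add_nonneg (hf0 _) (hf0 _)
    calc (f ((n : ℝ) - 1) - f ((m : ℝ) - 1)) * (f ((n : ℝ) - 1) + f ((m : ℝ) - 1))
        ≤ 2 * ε * (f ((n : ℝ) - 1) + f ((m : ℝ) - 1)) := mul_le_mul_of_nonneg_right k1 k2
      _ ≤ 2 * ε * (2 * Mx) := by
        apply mul_le_mul_of_nonneg_left _ (by positivity)
        linarith
      _ = 4 * ε * Mx := by ring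
  have t1 : 2 * T ≤ 8 * ε * Mx := by linarith
  have t2 : Mx ≤ T * C := by
    have h1 : B ≤ T * B := by nlinarith
    have h2 : (N0 : ℝ) * (T + ε) ≤ N0 * (2 * T) := by
      apply mul_le_mul_of_nonneg_left _ hN0'
      linarith
    have h3 : 3 * ε + 1 ≤ 4 * T := by linarith
    have h4 : T * C = T * B + N0 * (2 * T) + 4 * T := by rw [hC]; ring
    rw [hMx, hR, h4]
    linarith
  have t3 : 8 * ε * Mx ≤ T := by
    calc 8 * ε * Mx ≤ 8 * ε * (T * C) := mul_le_mul_of_nonneg_left t2 (by positivity)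
      _ = T * (8 * ε * C) := by ring
      _ = T := by rw [hεC, mul_one]
  linarith


end Loc

open Loc

/-- invariant strips of unbounded width give `ℤ²` which contains `g` (the proof is that of
`Pool.Agent.Y34.HB.WideT.t`) -/
theorem wide_loc (hG : Geo X G) {g0 : G} {τ : ℝ} (hτ : 0 < τ)
    (hS : ∀ n : ℕ, ∃ S : ℝ → ℝ → X, Strip S n ∧
      ∀ t s : ℝ, 0 ≤ s → s ≤ n → g0 • S t s = S (t + τ) s) : InZ2 g0 := by
  have := hG.proper
  have := hG.isom
  have := hG.disc
  obtain ⟨K, hK, hKc⟩ := hG.cc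
  -- the normalised strips
  have key : ∀ n : ℕ, ∃ (γ : G) (F : ℝ → ℝ → X), IsConj g0 γ ∧ F 0 0 ∈ K ∧
      (∀ x y x' y' : ℝ, |y| ≤ (n : ℝ) → |y'| ≤ (n : ℝ) →
        dist (F x y) (F x' y') ^ 2 = (x - x') ^ 2 + (y - y') ^ 2) ∧
      (∀ (x : ℝ) (y : ℤ), |(y : ℝ)| ≤ (n : ℝ) → γ • F x y = F (x + τ) y) := by
    intro n
    obtain ⟨S, hs, hg⟩ := hS (2 * n)
    push_cast at hs
    obtain ⟨b, hb⟩ := hKc (S 0 n)
    refine ⟨b * g0 * b⁻¹, fun x y => b • S x (n + y), isConj_iff.2 ⟨b, rfl⟩, by simpa using hb,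
      ?_, ?_⟩
    · intro x y x' y' hy hy'
      rw [abs_le] at hy hy'
      rw [dist_smul, hs _ _ _ _ (by linarith) (by linarith) (by linarith) (by linarith)]
      ring
    · intro x y hy
      rw [abs_le] at hy
      have hy1 : -(n : ℤ) ≤ y := by exact_mod_cast hy.1
      have hy2 : y ≤ (n : ℤ) := by exact_mod_cast hy.2
      obtain ⟨s, hs1⟩ := Int.eq_ofNat_of_zero_le (show 0 ≤ (n : ℤ) + y by omega)
      have hs2 : (s : ℝ) = n + y := by exact_mod_cast hs1.symm
      have hs3 : (s : ℝ) ≤ 2 * (n : ℝ) := by rw [hs2]; linarith [hy.2]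
      have h1 := hg x s (Nat.cast_nonneg _) (by push_cast; exact hs3)
      rw [hs2] at h1
      change (b * g0 * b⁻¹) • (b • S x (n + y)) = b • S (x + τ) (n + y)
      rw [mul_smul, mul_smul, inv_smul_smul, h1]
  choose γ F hconj hFK hFd hFg using key
  -- the elements `γ n` are in a finite set
  have hfin : {g : G | ((g • ·) '' K ∩ cthickening τ K).Nonempty}.Finite :=
    finite_disjoint_inter_image hK hK.cthickening
  have hmem : ∀ n, γ n ∈ {g : G | ((g • ·) '' K ∩ cthickening τ K).Nonempty} := by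
    intro n
    refine ⟨γ n • F n 0 0, ⟨F n 0 0, hFK n, rfl⟩, ?_⟩
    have h0 := hFg n 0 0 (by simp)
    rw [Int.cast_zero] at h0
    rw [h0]
    refine mem_cthickening_of_dist_le _ (F n 0 0) _ _ (hFK n) ?_
    have h1 := hFd n (0 + τ) 0 0 0 (by simp) (by simp)
    have h2 : dist (F n (0 + τ) 0) (F n 0 0) ^ 2 = τ ^ 2 := by rw [h1]; ring
    exact ((sq_eq_sq₀ dist_nonneg hτ.le).1 h2).le
  obtain ⟨g, -, hgev⟩ := (Ultrafilter.eventually_exists_mem_iff (f := hyperfilter ℕ)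
    (P := fun g n => γ n = g) hfin).1 (Eventually.of_forall fun n => ⟨γ n, hmem n, rfl⟩)
  have hev : ∀ y : ℝ, ∀ᶠ n : ℕ in (hyperfilter ℕ : Filter ℕ), |y| ≤ (n : ℝ) := by
    intro y
    have h2 : ∀ᶠ n : ℕ in atTop, |y| ≤ (n : ℝ) := by
      filter_upwards [eventually_ge_atTop ⌈|y|⌉₊] with n hn
      exact (Nat.le_ceil _).trans (by exact_mod_cast hn)
    exact Nat.hyperfilter_le_atTop h2
  have hlim : ∀ x y : ℝ, ∃ p : X,
      Tendsto (fun n => F n x y) (hyperfilter ℕ : Filter ℕ) (𝓝 p) := by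
    intro x y
    have hc : IsCompact (cthickening (Real.sqrt (x ^ 2 + y ^ 2)) K) := hK.cthickening
    have hmm : cthickening (Real.sqrt (x ^ 2 + y ^ 2)) K ∈
        ((hyperfilter ℕ).map fun n => F n x y) := by
      rw [Ultrafilter.mem_map]
      filter_upwards [hev y] with n hn
      have h2 := hFd n x y 0 0 hn (by simp)
      refine mem_cthickening_of_dist_le _ (F n 0 0) _ _ (hFK n) ?_
      refine Real.le_sqrt_of_sq_le ?_
      rw [h2]
      simp
    obtain ⟨p, -, hp⟩ := hc.ultrafilter_le_nhds' _ hmm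
    exact ⟨p, hp⟩
  choose f hf using hlim
  have hfl : Fl f := by
    intro x y x' y'
    have h2 : Tendsto (fun n => dist (F n x y) (F n x' y') ^ 2) (hyperfilter ℕ : Filter ℕ)
        (𝓝 (dist (f x y) (f x' y') ^ 2)) := ((hf x y).dist (hf x' y')).pow 2
    refine tendsto_nhds_unique h2 (Tendsto.congr' ?_ tendsto_const_nhds)
    filter_upwards [hev y, hev y'] with n hx hy
    exact (hFd n x y x' y' hx hy).symm
  have hfg : ∀ (x : ℝ) (y : ℤ), g • f x y = f (x + τ) y := by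
    intro x y
    have h1 : Tendsto (fun n => g • F n x y) (hyperfilter ℕ : Filter ℕ) (𝓝 (g • f x y)) :=
      (hf x y).const_smul g
    refine tendsto_nhds_unique h1 (Tendsto.congr' ?_ (hf (x + τ) y))
    filter_upwards [hev y, hgev] with n hy hn
    rw [← hFg n x y hy, hn]
  have hnat : ∀ (i : ℕ) (x : ℝ) (y : ℤ), g ^ i • f x y = f (x + i * τ) y := by
    intro i
    induction i with
    | zero => intro x y; simp
    | succ i ih =>
      intro x y
      rw [pow_succ, mul_smul, hfg, ih]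
      congr 1
      push_cast
      ring
  have hint : ∀ (i : ℤ) (x : ℝ) (y : ℤ), g ^ i • f x y = f (x + i * τ) y := by
    intro i x y
    obtain ⟨m, rfl | rfl⟩ := i.eq_nat_or_neg
    · rw [zpow_natCast, hnat]
      simp
    · rw [zpow_neg, zpow_natCast, inv_smul_eq_iff, hnat]
      congr 1
      push_cast
      ring
  have hone : ∀ x y : ℝ, dist (f x y) (f x (⌊y⌋ : ℤ)) ≤ 1 := by
    intro x y
    have h1 := hfl x y x (⌊y⌋ : ℤ)
    have h2 := Int.floor_le y
    have h3 := Int.lt_floor_add_one y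
    refine le_of_sq_le_sq ?_ zero_le_one
    rw [h1]
    nlinarith
  have hcg : IsConj g0 g := by
    obtain ⟨n, hn⟩ := hgev.exists
    rw [← hn]
    exact hconj n
  refine inZ2_of_conj hcg (close_loc (F := f) (τ := τ) (B := 2) ⟨hG.proper, hG.isom, hG.disc, hG.cc, hG.cn, hfl, hτ, fun i x y => ?_⟩)
  have h1 := dist_triangle4 (g ^ i • f x y) (g ^ i • f x (⌊y⌋ : ℤ)) (f (x + i * τ) (⌊y⌋ : ℤ))
    (f (x + i * τ) y)
  rw [hint i x ⌊y⌋, dist_self, ← hint i x ⌊y⌋, dist_smul] at h1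
  have h2 := hone x y
  have h3 := hone (x + i * τ) y
  rw [dist_comm, ← hint i x ⌊y⌋] at h3
  linarith


end Pool.Agent.R632.CZ
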