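import Pool.Agent.R632.CZ.Local

set_option autoImplicit false

universe u v w

open Metric Set Filter Topology
open Pool.Agent.TH60.FP Pool.Agent.Y34.HB Pool.Agent.Y34.EL

namespace Pool.Agent.R632.CZ

variable {X : Type u} [MetricSpace X] {G : Type v} [Group G] [MulAction G X]

/-- the distances of the axes of `g` are bounded if `g` is not in a `ℤ²` -/
theorem bounded_loc (hG : Geo X G) {τ : ℝ} (hτ : 0 < τ) {g : G} (hno : ¬ InZ2 g) :
    ∃ B : ℝ, ∀ (c c' : ℝ → X), Axis g τ c → Axis g τ c' → DD c c' ≤ B := by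
  have := hG.proper
  have := hG.isom
  by_contra hcon
  push Not at hcon
  apply hno
  refine wide_loc hG hτ fun n => ?_
  obtain ⟨c, c', hc, hc', hB⟩ := hcon n
  have hn : (0 : ℝ) ≤ n := Nat.cast_nonneg n
  obtain ⟨S, h1, -, h3⟩ := strip hG.cn hτ hc hc' (by linarith)
  exact ⟨S, fun t s t' s' h0 h2 h4 h5 => h1 t s t' s' h0 (by linarith) h4 (by linarith),
    fun t s h0 h2 => h3 t s h0 (by linarith)⟩

/-- an axis of `g` which is almost fixed by the centraliser of `g` -/
theorem central_loc (hG : Geo X G) {τ : ℝ} (hτ : 0 < τ) {g : G} (hno : ¬ InZ2 g) {c : ℝ → X}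
    (hc : Axis g τ c) : ∃ c' : ℝ → X, Axis g τ c' ∧ ∀ h : G, Commute g h →
      DD c' (fun t => h • c' t) ≤ 1 := by
  have := hG.proper
  have := hG.isom
  obtain ⟨B, hB⟩ := bounded_loc hG hτ hno
  obtain ⟨d1, d2, d3, d4, -⟩ := dd.{u} X hG.cn
  let A : Subgroup G := Subgroup.centralizer {g}
  have hA : ∀ a : A, Commute g (a : G) := fun a =>
    (Subgroup.mem_centralizer_singleton_iff.1 a.2).symm
  have hpp : ∀ x y : ℝ → X, Axis g τ x → Axis g τ y → Par x y := fun x y hx hy =>
    Axis.par hτ hx hy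
  obtain ⟨c', h1, h2, -⟩ := t_cen (ℝ → X) (fun c => Axis g τ c) DD A
    (fun a x hx => Axis.move hx (hA a))
    (fun x y _ _ => infDist_nonneg)
    (fun x y hx hy => d2 x y hx.1 hy.1 (hpp x y hx hy))
    (fun x y z hx hy hz => d3 x y z hx.1 hy.1 hz.1 (hpp x y hx hy) (hpp y z hy hz))
    (fun a x y _ _ => Pool.Agent.TH60.FP.Bnd.DD_smul (a : G) x y)
    (fun x y hx hy => mid_axis hG.cn hτ hx hy)
    c B 1 hc one_pos (fun a => hB _ _ hc (Axis.move hc (hA a)))
  exact ⟨c', h1, fun h hh => h2 ⟨h, Subgroup.mem_centralizer_singleton_iff.2 hh.symm⟩⟩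

/-- The distance of two axes of `g` is at most the number of conjugates of `g` which move the point
`x0` by at most the translation length plus a constant, times a constant. -/
theorem width_loc (hG : Geo X G) (x0 : X) : ∃ C : ℝ, 0 < C ∧
    ∀ (g : G) (τ : ℝ) (c c' : ℝ → X), ¬ InZ2 g → 0 < τ → Axis g τ c → Axis g τ c' →
      DD c c' ≤ C * {γ : G | IsConj g γ ∧ dist (γ • x0) x0 ≤ τ + C}.ncard := by
  have := hG.proper
  have := hG.isom
  obtain ⟨ρ, hρ, hcov⟩ := cover hG x0
  obtain ⟨d1, d2, d3, -, -⟩ := dd.{u} X hG.cn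
  set L : ℝ := 2 * ρ + 2 with hL
  refine ⟨2 * L, by linarith, fun g τ c c' hno hτ hc hc' => ?_⟩
  set Γ : Set G := {γ : G | IsConj g γ ∧ dist (γ • x0) x0 ≤ τ + 2 * L} with hΓ
  have hΓf : Γ.Finite := (fin_ball hG x0 (τ + 2 * L)).subset fun γ h => h.2
  obtain ⟨a, ha, hac⟩ := central_loc hG hτ hno hc
  have key : ∀ b : ℝ → X, Axis g τ b → DD a b ≤ L * Γ.ncard := by
    intro b hb
    by_contra hcon
    push Not at hcon
    have hD : 0 < DD a b := lt_of_le_of_lt (by positivity) hcon
    obtain ⟨S, hS, hS0, hSg⟩ := strip hG.cn hτ ha hb hD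
    -- the sample points
    have hle : ∀ i : Fin (Γ.ncard + 1), (i : ℝ) * L ≤ DD a b := by
      intro i
      have h1 : ((i : ℕ) : ℝ) ≤ Γ.ncard := by
        exact_mod_cast Nat.lt_succ_iff.1 i.2
      nlinarith
    have hge : ∀ i : Fin (Γ.ncard + 1), 0 ≤ ((i : ℕ) : ℝ) * L := fun i => by positivity
    choose h hh using fun i : Fin (Γ.ncard + 1) => hcov (S 0 (i * L))
    have hmem : ∀ i, h i * g * (h i)⁻¹ ∈ Γ := by
      intro i
      refine ⟨isConj_iff.2 ⟨h i, rfl⟩, ?_⟩
      have e1 : dist (g • S 0 (i * L)) (S 0 (i * L)) = τ := by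
        rw [hSg _ _ (hge i) (hle i)]
        refine (sq_eq_sq₀ dist_nonneg hτ.le).1 ?_
        rw [hS _ _ _ _ (hge i) (hle i) (hge i) (hle i)]
        ring
      have e2 : dist ((h i * g * (h i)⁻¹) • x0) ((h i * g) • S 0 (i * L)) ≤ ρ := by
        have e3 : (h i * g) • S 0 (i * L) = (h i * g * (h i)⁻¹) • (h i • S 0 (i * L)) := by
          rw [smul_smul]
          congr 1
          group
        rw [e3, dist_smul, dist_comm]
        exact hh i
      have e4 : dist ((h i * g) • S 0 (i * L)) (h i • S 0 (i * L)) = τ := by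
        rw [mul_smul, dist_smul, e1]
      have e5 := dist_triangle4 ((h i * g * (h i)⁻¹) • x0) ((h i * g) • S 0 (i * L))
        (h i • S 0 (i * L)) x0
      have e6 := hh i
      linarith
    obtain ⟨i, j, hij, he⟩ : ∃ i j : Fin (Γ.ncard + 1), i < j ∧
        h i * g * (h i)⁻¹ = h j * g * (h j)⁻¹ := by
      by_contra hinj
      push Not at hinj
      have hI : Function.Injective (fun i : Fin (Γ.ncard + 1) => h i * g * (h i)⁻¹) := by
        intro i j hh
        by_contra hne
        rcases lt_or_gt_of_ne hne with h1 | h1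
        · exact hinj i j h1 hh
        · exact hinj j i h1 hh.symm
      have h1 := Set.ncard_le_ncard (s := Set.range fun i : Fin (Γ.ncard + 1) =>
        h i * g * (h i)⁻¹) (t := Γ) (by rintro _ ⟨i, rfl⟩; exact hmem i) hΓf
      rw [← Set.image_univ, Set.ncard_image_of_injective _ hI, Set.ncard_univ,
        Nat.card_eq_fintype_card, Fintype.card_fin] at h1
      omega
    set k : G := (h j)⁻¹ * h i with hk
    have hcomm : Commute g k := by
      have h1 : (h j)⁻¹ * (h i * g * (h i)⁻¹) * h i = (h j)⁻¹ * (h j * g * (h j)⁻¹) * h i := by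
        rw [he]
      show g * k = k * g
      rw [hk]
      calc g * ((h j)⁻¹ * h i) = (h j)⁻¹ * (h j * g * (h j)⁻¹) * h i := by group
        _ = (h j)⁻¹ * (h i * g * (h i)⁻¹) * h i := h1.symm
        _ = (h j)⁻¹ * h i * g := by group
    have hkx : dist (k • S 0 (i * L)) (S 0 (j * L)) ≤ 2 * ρ := by
      have e1 : dist (k • S 0 (i * L)) (S 0 (j * L)) =
          dist (h i • S 0 (i * L)) (h j • S 0 (j * L)) := by
        rw [← dist_smul (h j) (k • S 0 (i * L)), smul_smul, hk]
        congr 2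
        group
      rw [e1]
      have e2 := dist_triangle (h i • S 0 (i * L)) x0 (h j • S 0 (j * L))
      have e3 := hh i
      have e4 := hh j
      rw [dist_comm] at e4
      linarith
    have hka : Axis g τ (fun t => k • a t) := Axis.move ha hcomm
    obtain ⟨-, o, ho⟩ := d1 a (fun t => k • a t) ha.1 hka.1 (Axis.par hτ ha hka)
    -- the point `k • a 0` is near `a`
    have e1 : dist (a (-o)) (k • a 0) ≤ 1 := by
      have h1 : dist (a (-o)) (k • a 0) ^ 2 = DD a (fun t => k • a t) ^ 2 := by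
        rw [ho (-o) 0]
        ring
      have h2 := hac k hcomm
      have h3 : 0 ≤ DD a (fun t => k • a t) := infDist_nonneg
      have h4 : dist (a (-o)) (k • a 0) = DD a (fun t => k • a t) :=
        (sq_eq_sq₀ dist_nonneg h3).1 h1
      rw [h4]
      exact h2
    have e2 : dist (k • a 0) (k • S 0 (i * L)) = i * L := by
      rw [dist_smul, ← hS0]
      refine (sq_eq_sq₀ dist_nonneg (hge i)).1 ?_
      rw [hS _ _ _ _ le_rfl hD.le (hge i) (hle i)]
      ring
    have e3 : (j : ℝ) * L ≤ dist (a (-o)) (S 0 (j * L)) := by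
      rw [← hS0]
      refine (pow_le_pow_iff_left₀ (hge j) dist_nonneg two_ne_zero).1 ?_
      rw [hS _ _ _ _ le_rfl hD.le (hge j) (hle j)]
      nlinarith [sq_nonneg (-o - 0)]
    have e4 := dist_triangle4 (a (-o)) (k • a 0) (k • S 0 (i * L)) (S 0 (j * L))
    have e5 : ((i : ℕ) : ℝ) + 1 ≤ (j : ℕ) := by
      exact_mod_cast hij
    nlinarith
  have h1 := key c hc
  have h2 := key c' hc'
  have h3 := d3 c a c' hc.1 ha.1 hc'.1 (Axis.par hτ hc ha) (Axis.par hτ ha hc')
  have h4 := d2 c a hc.1 ha.1 (Axis.par hτ hc ha)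
  rw [h4] at h3
  linarith


/-- a half-plane invariant under a translation `g` along its boundary gives `ℤ²` which contains
`g` -/
theorem of_periodic_loc (hG : Geo X G) (g : G) (τ : ℝ) (hτ : 0 < τ) (c : ℝ → X)
    (H : ℝ × NNReal → X) (hH : H ∈ HP c)
    (hper : ∀ t s, g • H (t, s) = H (t + τ, s)) : InZ2 g := by
  refine wide_loc hG hτ fun m => ⟨fun t s => H (t, s.toNNReal), ?_, fun t s _ _ =>
    hper t _⟩
  intro t s t' s' h0 _ h1 _
  rw [hH.1]
  simp only [Real.coe_toNNReal s h0, Real.coe_toNNReal s' h1]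

end Pool.Agent.R632.CZ
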