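import Pool.Agent.Y34.HB.Stm2
import Pool.Agent.Y155.HB.Slab

set_option autoImplicit false

universe u v w

open Metric Set Filter Topology
open Pool.Agent.TH60.FP Pool.Agent.Y34.HB Pool.Agent.Y155.HB

namespace Pool.Agent.R632.CZ

/-- the points of the segments between two parallel flats form a flat slab (the proof is that of
`Pool.Agent.Y155.HB.t2`) -/
theorem slab_of {X : Type u} [MetricSpace X] {V : Type w} [NormedAddCommGroup V] [NormedSpace ℝ V]
    {f h : V → X} {d : ℝ} (hf : Isometry f) (hh : Isometry h) (hd : 0 < d)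
    (hdd : ∀ z w, dist (f z) (h w) ^ 2 = d ^ 2 + dist z w ^ 2) (P : V → ℝ → X)
    (key : ∀ (z : V) (s : ℝ), 0 ≤ s → s ≤ d → ∀ x : X, dist x (P z s) ^ 2 ≤
      (1 - s / d) * dist x (f z) ^ 2 + s / d * dist x (h z) ^ 2 - s * (d - s)) :
    ∀ z w s t, 0 ≤ s → s ≤ d → 0 ≤ t → t ≤ d →
      dist (P z s) (P w t) ^ 2 = dist z w ^ 2 + (s - t) ^ 2 := by
  have hff : ∀ z w, dist (f z) (f w) = dist z w := fun z w => hf.dist_eq z w
  have hhh : ∀ z w, dist (h z) (h w) = dist z w := fun z w => hh.dist_eq z w
  have u1 : ∀ z w t, 0 ≤ t → t ≤ d → dist (f z) (P w t) ^ 2 ≤ dist z w ^ 2 + t ^ 2 := by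
    intro z w t h0 h1
    refine (key w t h0 h1 (f z)).trans (le_of_eq ?_)
    rw [hff, hdd]
    field_simp
    ring
  have u2 : ∀ z w t, 0 ≤ t → t ≤ d →
      dist (h z) (P w t) ^ 2 ≤ dist z w ^ 2 + (d - t) ^ 2 := by
    intro z w t h0 h1
    refine (key w t h0 h1 (h z)).trans (le_of_eq ?_)
    rw [dist_comm (h z) (f w), hdd, hhh, dist_comm w z]
    field_simp
    ring
  have u3 : ∀ z w s t, 0 ≤ s → s ≤ d → 0 ≤ t → t ≤ d →
      dist (P z s) (P w t) ^ 2 ≤ dist z w ^ 2 + (s - t) ^ 2 := by
    intro z w s t h0 h1 h2 h3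
    rw [dist_comm (P z s)]
    have k1 := key z s h0 h1 (P w t)
    have k2 := u1 z w t h2 h3
    have k3 := u2 z w t h2 h3
    rw [dist_comm] at k2 k3
    have k4 : 0 ≤ s / d := by positivity
    have k5 : 0 ≤ 1 - s / d := by
      rw [sub_nonneg]
      exact (div_le_one hd).2 h1
    calc dist (P w t) (P z s) ^ 2 ≤ _ := k1
      _ ≤ (1 - s / d) * (dist z w ^ 2 + t ^ 2) + s / d * (dist z w ^ 2 + (d - t) ^ 2) -
          s * (d - s) := by gcongr
      _ = dist z w ^ 2 + (s - t) ^ 2 := by
        field_simp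
        ring
  -- lower bound
  have l1 : ∀ z w s t, 0 ≤ s → t ≤ d → s < t →
      dist z w ^ 2 + (s - t) ^ 2 ≤ dist (P z s) (P w t) ^ 2 := by
    intro z w s t h0 h1 hst
    have hts : 0 < t - s := by linarith
    set L : ℝ := √(dist z w ^ 2 + (s - t) ^ 2) with hL
    have hL0 : 0 ≤ L := Real.sqrt_nonneg _
    have hL2 : L ^ 2 = dist z w ^ 2 + (s - t) ^ 2 := Real.sq_sqrt (by positivity)
    set z0 : V := z - (s / (t - s)) • (w - z) with hz0
    set w0 : V := w + ((d - t) / (t - s)) • (w - z) with hw0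
    have d1 : dist z0 w0 = d / (t - s) * dist z w := by
      have : z0 - w0 = -((d / (t - s)) • (w - z)) := by
        rw [hz0, hw0]
        have : d / (t - s) = s / (t - s) + 1 + (d - t) / (t - s) := by
          field_simp
          ring
        rw [this]
        module
      rw [dist_eq_norm, this, norm_neg, norm_smul, Real.norm_eq_abs,
        abs_of_nonneg (by positivity), dist_comm z w, dist_eq_norm w z]
    have d2 : dist z0 z = s / (t - s) * dist z w := by
      have : z0 - z = -((s / (t - s)) • (w - z)) := by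
        rw [hz0]
        module
      rw [dist_eq_norm, this, norm_neg, norm_smul, Real.norm_eq_abs,
        abs_of_nonneg (by positivity), dist_comm z w, dist_eq_norm w z]
    have d3 : dist w0 w = (d - t) / (t - s) * dist z w := by
      have : w0 - w = ((d - t) / (t - s)) • (w - z) := by
        rw [hw0]
        module
      rw [dist_eq_norm, this, norm_smul, Real.norm_eq_abs,
        abs_of_nonneg (div_nonneg (by linarith) hts.le), dist_comm z w, dist_eq_norm w z]
    have e1 : dist (f z0) (h w0) = d / (t - s) * L := by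
      refine (pow_left_inj₀ dist_nonneg (by positivity) two_ne_zero).1 ?_
      rw [hdd, d1, mul_pow, mul_pow, hL2]
      field_simp
      ring
    have e2 : dist (f z0) (P z s) ≤ s / (t - s) * L := by
      refine (pow_le_pow_iff_left₀ dist_nonneg (by positivity) two_ne_zero).1 ?_
      refine (u1 z0 z s h0 (by linarith)).trans (le_of_eq ?_)
      rw [d2, mul_pow, mul_pow, hL2]
      field_simp
      ring
    have e3 : dist (h w0) (P w t) ≤ (d - t) / (t - s) * L := by
      refine (pow_le_pow_iff_left₀ dist_nonneg (mul_nonneg (div_nonneg (by linarith) hts.le) hL0)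
        two_ne_zero).1 ?_
      refine (u2 w0 w t (by linarith) h1).trans (le_of_eq ?_)
      rw [d3, mul_pow, mul_pow, hL2]
      field_simp
      ring
    have e4 : L ≤ dist (P z s) (P w t) := by
      have h5 := dist_triangle4 (f z0) (P z s) (P w t) (h w0)
      rw [e1, dist_comm (P w t)] at h5
      have h6 : d / (t - s) * L = s / (t - s) * L + L + (d - t) / (t - s) * L := by
        field_simp
        ring
      linarith
    rw [← hL2]
    exact pow_le_pow_left₀ hL0 e4 2
  have l2 : ∀ z w s t, 0 ≤ s → s ≤ d → 0 ≤ t → t ≤ d → s ≠ t →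
      dist z w ^ 2 + (s - t) ^ 2 ≤ dist (P z s) (P w t) ^ 2 := by
    intro z w s t h0 h1 h2 h3 hne
    rcases lt_or_gt_of_ne hne with h4 | h4
    · exact l1 z w s t h0 h3 h4
    · have := l1 w z t s h2 h1 h4
      rw [dist_comm z w, dist_comm (P z s)]
      nlinarith
  have l3 : ∀ z w s, 0 ≤ s → s ≤ d → dist z w ≤ dist (P z s) (P w s) := by
    intro z w s h0 h1
    refine le_of_forall_pos_le_add fun ε hε => ?_
    obtain ⟨t, ht0, ht1, hts, htε⟩ : ∃ t : ℝ, 0 ≤ t ∧ t ≤ d ∧ s ≠ t ∧ |t - s| ≤ ε := by
      rcases lt_or_eq_of_le h1 with h2 | h2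
      · refine ⟨min d (s + ε), le_min hd.le (by linarith), min_le_left _ _, ?_, ?_⟩
        · exact (lt_min h2 (by linarith)).ne
        · rw [abs_of_nonneg (by rw [sub_nonneg]; exact le_min h1 (by linarith))]
          have := min_le_right d (s + ε)
          linarith
      · refine ⟨max 0 (s - ε), le_max_left _ _, max_le hd.le (by linarith), ?_, ?_⟩
        · refine (max_lt ?_ (by linarith)).ne'
          rw [h2]; exact hd
        · rw [abs_of_nonpos (by rw [sub_nonpos]; exact max_le h0 (by linarith))]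
          have := le_max_right 0 (s - ε)
          linarith
    have k1 : dist z w ≤ dist (P z s) (P w t) := by
      refine (pow_le_pow_iff_left₀ dist_nonneg dist_nonneg two_ne_zero).1 ?_
      have := l2 z w s t h0 h1 ht0 ht1 hts
      nlinarith [sq_nonneg (s - t)]
    have k2 : dist (P w t) (P w s) ≤ ε := by
      refine le_trans ?_ htε
      refine (pow_le_pow_iff_left₀ dist_nonneg (abs_nonneg _) two_ne_zero).1 ?_
      have := u3 w w t s ht0 ht1 h0 h1
      rw [dist_self] at this
      rw [sq_abs]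
      linarith
    have k3 := dist_triangle (P z s) (P w s) (P w t)
    rw [dist_comm (P w s)] at k3
    linarith
  intro z w s t h0 h1 h2 h3
  refine le_antisymm (u3 z w s t h0 h1 h2 h3) ?_
  by_cases hst : s = t
  · subst hst
    rw [sub_self]
    have := pow_le_pow_left₀ dist_nonneg (l3 z w s h0 h1) 2
    linarith
  · exact l2 z w s t h0 h1 h2 h3 hst


end Pool.Agent.R632.CZ
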