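import Pool.Agent.R632.CZ.Disc

set_option autoImplicit false

universe u v w

open Metric Set Filter Topology
open Pool.Agent.TH60.FP Pool.Agent.Y34.HB Pool.Agent.Y34.EL Pool.Agent.Y155.HB

namespace Pool.Agent.R632.CZ

variable {X : Type u} [MetricSpace X] {G : Type v} [Group G] [MulAction G X]

lemma strip_depth {c : ℝ → X} {S : ℝ → ℝ → X} {W : ℝ} (hS : Strip S W) (hc : ∀ t, S t 0 = c t)
    (t s : ℝ) (h0 : 0 ≤ s) (h1 : s ≤ W) : s ≤ infDist (S t s) (range c) := by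
  refine (le_infDist (range_nonempty c)).2 ?_
  rintro _ ⟨t', rfl⟩
  have h2 : dist (S t s) (c t') ^ 2 = (t - t') ^ 2 + s ^ 2 := by
    rw [← hc t', hS t s t' 0 h0 h1 le_rfl (h0.trans h1), sub_zero]
  have h3 : s ^ 2 ≤ dist (S t s) (c t') ^ 2 := by
    rw [h2]
    exact le_add_of_nonneg_left (sq_nonneg _)
  exact (pow_le_pow_iff_left₀ h0 dist_nonneg two_ne_zero).1 h3

/-- the translates of a strip along an axis of `g` under the powers of `g` diverge -/
theorem strips_diverge (hG : Geo X G) : ∃ A : ℝ, 0 < A ∧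
    ∀ (g : G) (τ : ℝ) (c : ℝ → X) (m : ℕ), (∀ n : ℕ, 0 < n → n ≤ m → ¬ InZ2 (g ^ n)) → 0 < τ →
      Axis g τ c → ∀ (W : ℝ) (S : ℝ → ℝ → X), Strip S W → (∀ t, S t 0 = c t) → ∀ (D : ℝ) (i j : ℕ),
        i ≤ m → j ≤ m → i ≠ j → ∀ t s : ℝ, A * Real.exp (A * (m * τ + D)) < s → s ≤ W →
          D < dist (g ^ i • S (t - i * τ) s) (g ^ j • S (t - j * τ) s) := by
  have := hG.isom
  obtain ⟨A, hA, hdisp⟩ := disp_exp hG
  refine ⟨A, hA, fun g τ c m hno hτ hc W S hS hS0 D => ?_⟩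
  have key : ∀ i j : ℕ, i ≤ m → j ≤ m → i < j → ∀ t s : ℝ,
      A * Real.exp (A * (m * τ + D)) < s → s ≤ W →
        D < dist (g ^ i • S (t - i * τ) s) (g ^ j • S (t - j * τ) s) := by
    intro i j hi hj hij t s hs hsW
    by_contra hcon
    push Not at hcon
    have hs0 : 0 ≤ s := le_trans (by positivity) hs.le
    obtain ⟨n, rfl⟩ : ∃ n : ℕ, j = i + n := ⟨j - i, by omega⟩
    have hn0 : 0 < n := by omega
    have hnm : (n : ℝ) ≤ m := by
      have : n ≤ m := by omega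
      exact_mod_cast this
    rw [pow_add, mul_smul, dist_smul] at hcon
    push_cast at hcon
    set x : X := S (t - ((i : ℝ) + (n : ℝ)) * τ) s with hx
    have e1 : dist (S (t - i * τ) s) x = n * τ := by
      refine (sq_eq_sq₀ dist_nonneg (by positivity)).1 ?_
      rw [hx, hS _ _ _ _ hs0 hsW hs0 hsW]
      ring
    have e2 : dist (g ^ n • x) x ≤ m * τ + D := by
      have h1 := dist_triangle (g ^ n • x) (S (t - i * τ) s) x
      rw [e1, dist_comm (g ^ n • x) (S (t - i * τ) s)] at h1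
      have h2 : (n : ℝ) * τ ≤ m * τ := mul_le_mul_of_nonneg_right hnm hτ.le
      linarith
    have hcn : Axis (g ^ n) (n * τ) c := ⟨hc.1, fun t => Axis.nat hc n t⟩
    have e3 := hdisp (g ^ n) (n * τ) c x (hno n hn0 (by omega)) (by positivity) hcn
    have e4 := strip_depth hS hS0 (t - ((i : ℝ) + (n : ℝ)) * τ) s hs0 hsW
    have e5 : Real.exp (A * dist (g ^ n • x) x) ≤ Real.exp (A * (m * τ + D)) :=
      Real.exp_le_exp.2 (mul_le_mul_of_nonneg_left e2 hA.le)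
    have e6 := mul_le_mul_of_nonneg_left e5 hA.le
    linarith
  intro i j hi hj hij t s hs hsW
  rcases lt_or_gt_of_ne hij with h | h
  · exact key i j hi hj h t s hs hsW
  · rw [dist_comm]
    exact key j i hj hi h t s hs hsW

/-- few strips of large width force `ℤ²` -/
theorem strips_cover (hG : Geo X G) : ∃ A : ℝ, 0 < A ∧
    ∀ (g : G) (τ : ℝ) (c : ℝ → X) (m : ℕ) (D W : ℝ) (p : Fin m → X), 0 < τ → Axis g τ c →
      A * Real.exp (A * (m * τ + D)) < W →
      (∃ S : ℝ → ℝ → X, Strip S W ∧ ∀ t, S t 0 = c t) →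
      (∀ S : ℝ → ℝ → X, Strip S W → (∀ t, S t 0 = c t) → ∃ k, dist (S 0 W) (p k) ≤ D / 2) →
      ∃ n : ℕ, 0 < n ∧ n ≤ m ∧ InZ2 (g ^ n) := by
  have := hG.isom
  obtain ⟨A, hA, h⟩ := strips_diverge hG
  refine ⟨A, hA, fun g τ c m D W p hτ hc hW ⟨S, hS, hS0⟩ hcov => ?_⟩
  by_contra hno
  push Not at hno
  have hW0 : 0 ≤ W := le_trans (by positivity) hW.le
  have hd := h g τ c m (fun n h0 h1 => hno n h0 h1) hτ hc W S hS hS0 D
  have hSi : ∀ i : Fin (m + 1), ∃ k, dist (g ^ (i : ℕ) • S (0 - (i : ℕ) * τ) W) (p k) ≤ D / 2 := by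
    intro i
    refine hcov (fun t s => g ^ (i : ℕ) • S (t - (i : ℕ) * τ) s) ?_ ?_
    · intro t s t' s' h0 h1 h2 h3
      rw [dist_smul, hS _ _ _ _ h0 h1 h2 h3]
      ring
    · intro t
      show g ^ (i : ℕ) • S (t - (i : ℕ) * τ) 0 = c t
      rw [hS0, Axis.nat hc, sub_add_cancel]
  choose k hk using hSi
  obtain ⟨i, j, hij, hkij⟩ := Fintype.exists_ne_map_eq_of_card_lt k (by simp)
  have h1 := hd i j (by omega) (by omega) (fun h => hij (Fin.ext h)) 0 W hW le_rfl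
  have h2 := dist_triangle (g ^ (i : ℕ) • S (0 - (i : ℕ) * τ) W) (p (k i))
    (g ^ (j : ℕ) • S (0 - (j : ℕ) * τ) W)
  have h3 := hk i
  have h4 := hk j
  rw [← hkij, dist_comm] at h4
  linarith

end Pool.Agent.R632.CZ
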